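import Pool.Agent.Helper28.BPack.Main

/-!
# Frame matroids with joints

If the interval from `f` to the top has a basis `B` of atoms such that every atom lies below the
join of `f` and two elements of `B`, then the interval has a Boolean packing.
-/

set_option autoImplicit false
set_option linter.unusedSectionVars false

namespace Pool.Agent.Helper28.BPack

variable {L : Type} [Lattice L] [BoundedOrder L] [Finite L] [IsUpperModularLattice L]

/-- `B` is a basis of atoms of the interval from `f` to the top. -/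
structure IsBase (f : L) (B : Finset L) : Prop where
  atom : ∀ b ∈ B, IsAtom b
  card : rk (⊤ : L) = rk f + B.card
  top : f ⊔ B.sup id = ⊤

namespace IsBase

variable {f : L} {B : Finset L} [DecidableEq L] [DecidableLE L]

theorem rk_span (hB : IsBase f B) {W : Finset L} (hW : W ⊆ B) :
    rk (f ⊔ W.sup id) = rk f + W.card := by
  have h1 : rk (f ⊔ W.sup id) ≤ rk f + W.card :=
    rk_sup_finset_le f W id (fun b hb => hB.atom b (hW hb))
  have h2 : rk ((f ⊔ W.sup id) ⊔ (B \ W).sup id) ≤ rk (f ⊔ W.sup id) + (B \ W).card :=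
    rk_sup_finset_le _ (B \ W) id (fun b hb => hB.atom b (Finset.sdiff_subset hb))
  have h3 : (f ⊔ W.sup id) ⊔ (B \ W).sup id = ⊤ := by
    rw [sup_assoc, ← Finset.sup_union, Finset.union_sdiff_of_subset hW, hB.top]
  have h4 : (B \ W).card + W.card = B.card := Finset.card_sdiff_add_card_eq_card hW
  rw [h3, hB.card] at h2
  omega

theorem rk_add (hB : IsBase f B) {S W : Finset L} (hS : S ⊆ B) (hW : W ⊆ B)
    (hd : Disjoint S W) {y : L} (hfy : f ≤ y) (hy : y ≤ f ⊔ S.sup id) :
    rk (y ⊔ W.sup id) = rk y + W.card := by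
  have h0 : y ⊔ S.sup id = f ⊔ S.sup id :=
    le_antisymm (sup_le hy le_sup_right) (sup_le_sup_right hfy _)
  obtain ⟨C, hCS, hC1, hC2⟩ := exists_basis y S (fun b hb => hB.atom b (hS hb))
  rw [h0, hB.rk_span hS] at hC2
  have h1 : rk (y ⊔ W.sup id) ≤ rk y + W.card :=
    rk_sup_finset_le y W id (fun b hb => hB.atom b (hW hb))
  have h2 : rk ((y ⊔ W.sup id) ⊔ C.sup id) ≤ rk (y ⊔ W.sup id) + C.card :=
    rk_sup_finset_le _ C id (fun b hb => hB.atom b (hS (hCS hb)))
  have h3 : (y ⊔ W.sup id) ⊔ C.sup id = f ⊔ (S ∪ W).sup id := by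
    rw [sup_right_comm, hC1, h0, Finset.sup_union, sup_assoc]
  rw [h3, hB.rk_span (Finset.union_subset hS hW), Finset.card_union_of_disjoint hd] at h2
  omega

theorem mem_of_le (hB : IsBase f B) {W : Finset L} (hW : W ⊆ B) {b : L} (hb : b ∈ B)
    (h : b ≤ f ⊔ W.sup id) : b ∈ W := by
  by_contra hbW
  have h1 := hB.rk_span (W := insert b W) (Finset.insert_subset hb hW)
  rw [Finset.card_insert_of_notMem hbW, Finset.sup_insert, id, sup_left_comm,
    sup_eq_right.mpr h, hB.rk_span hW] at h1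
  omega

theorem inf_span (hB : IsBase f B) {U V : Finset L} (hU : U ⊆ B) (hV : V ⊆ B) :
    (f ⊔ U.sup id) ⊓ (f ⊔ V.sup id) ≤ f ⊔ (U ∩ V).sup id := by
  have h0 : f ⊔ (U ∩ V).sup id ≤ (f ⊔ U.sup id) ⊓ (f ⊔ V.sup id) :=
    le_inf (sup_le_sup_left (Finset.sup_mono Finset.inter_subset_left) _)
      (sup_le_sup_left (Finset.sup_mono Finset.inter_subset_right) _)
  have hfy : f ≤ (f ⊔ U.sup id) ⊓ (f ⊔ V.sup id) := le_inf le_sup_left le_sup_left
  have h1 := hB.rk_add hU (Finset.sdiff_subset.trans hV : V \ U ⊆ B)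
    (Finset.disjoint_sdiff) hfy inf_le_left
  have h2 : ((f ⊔ U.sup id) ⊓ (f ⊔ V.sup id)) ⊔ (V \ U).sup id ≤ f ⊔ V.sup id :=
    sup_le inf_le_right ((Finset.sup_mono Finset.sdiff_subset).trans le_sup_right)
  have h3 := rk_mono h2
  rw [h1, hB.rk_span hV] at h3
  have h4 : (V \ U).card + (V ∩ U).card = V.card := Finset.card_sdiff_add_card_inter V U
  have h5 := hB.rk_span (Finset.inter_subset_left.trans hU : U ∩ V ⊆ B)
  rw [Finset.inter_comm V U] at h4
  exact (eq_of_le_of_rk h0 (by omega)).symm.le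

/-- The elements of `B` not needed to span `G`. -/
noncomputable def I (f : L) (B : Finset L) (G : L) : Finset L :=
  B.filter (fun b => G ≤ f ⊔ (B.erase b).sup id)

theorem I_subset (f : L) (B : Finset L) (G : L) : I f B G ⊆ B := Finset.filter_subset _ _

theorem le_of_subset_I (hB : IsBase f B) {G : L} :
    ∀ {W : Finset L}, W ⊆ I f B G → G ≤ f ⊔ (B \ W).sup id := by
  intro W
  induction W using Finset.induction_on with
  | empty => intro _; rw [Finset.sdiff_empty, hB.top]; exact le_top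
  | insert b W hb ih =>
    intro hW
    have h1 := ih ((Finset.subset_insert b W).trans hW)
    have h2 : b ∈ I f B G := hW (Finset.mem_insert_self b W)
    rw [I, Finset.mem_filter] at h2
    have h3 := hB.inf_span (Finset.sdiff_subset : B \ W ⊆ B) (Finset.erase_subset b B)
    have h4 : (B \ W) ∩ B.erase b = B \ insert b W := by
      ext k
      simp only [Finset.mem_inter, Finset.mem_sdiff, Finset.mem_erase, Finset.mem_insert]
      tauto
    rw [h4] at h3
    exact (le_inf h1 h2.2).trans h3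

/-- The elements of `B` below `x`. -/
noncomputable def Z (B : Finset L) (x : L) : Finset L := B.filter (fun b => b ≤ x)

/-- The canonical complement of the join of `Z x`. -/
noncomputable def G (f : L) (B : Finset L) (x : L) : L := x ⊓ (f ⊔ (B \ Z B x).sup id)

theorem Z_subset (B : Finset L) (x : L) : Z B x ⊆ B := Finset.filter_subset _ _

theorem le_G {x : L} (hfx : f ≤ x) : f ≤ G f B x := le_inf hfx le_sup_left

theorem free_G (hB : IsBase f B) {x b : L} (hb : b ∈ B) : ¬ b ≤ G f B x := by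
  intro h
  have h1 : b ∈ Z B x := Finset.mem_filter.mpr ⟨hb, h.trans inf_le_left⟩
  have h2 : b ∈ B \ Z B x := by
    exact hB.mem_of_le (W := B \ Z B x) Finset.sdiff_subset hb (h.trans inf_le_right)
  exact (Finset.mem_sdiff.mp h2).2 h1

theorem Z_subset_I (x : L) : Z B x ⊆ I f B (G f B x) := by
  intro b hb
  rw [I, Finset.mem_filter]
  refine ⟨Z_subset B x hb, inf_le_right.trans (sup_le_sup_left (Finset.sup_mono ?_) _)⟩
  intro k hk
  rw [Finset.mem_sdiff] at hk
  rw [Finset.mem_erase]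
  exact ⟨fun h => hk.2 (h ▸ hb), hk.1⟩

/-- Reconstruction of the basis elements below an element. -/
theorem Z_eq (hB : IsBase f B) {g : L} (hfg : f ≤ g) (hg : ∀ b ∈ B, ¬ b ≤ g) {W : Finset L}
    (hW : W ⊆ I f B g) : Z B (g ⊔ W.sup id) = W := by
  have hWB := hW.trans (I_subset f B g)
  apply Finset.Subset.antisymm
  · intro b hb
    rw [Z, Finset.mem_filter] at hb
    by_contra hbW
    have h1 : g ≤ f ⊔ (B \ W).sup id := hB.le_of_subset_I hW
    have h2 : b ∈ B \ W := Finset.mem_sdiff.mpr ⟨hb.1, hbW⟩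
    have h3 : b ≤ f ⊔ (B \ W).sup id := (Finset.le_sup (f := id) h2).trans le_sup_right
    have h4 := hB.rk_add (S := B \ W) Finset.sdiff_subset hWB Finset.sdiff_disjoint
      (y := g ⊔ b) (hfg.trans le_sup_left) (sup_le h1 h3)
    have h5 := hB.rk_add (S := B \ W) Finset.sdiff_subset hWB Finset.sdiff_disjoint
      (y := g) hfg h1
    rw [rk_sup_atom (hB.atom b hb.1) (hg b hb.1), sup_right_comm, sup_eq_left.mpr hb.2, h5] at h4
    omega
  · intro b hb
    rw [Z, Finset.mem_filter]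
    exact ⟨hWB hb, (Finset.le_sup (f := id) hb).trans le_sup_right⟩

theorem G_eq (hB : IsBase f B) {g : L} (hfg : f ≤ g) (hg : ∀ b ∈ B, ¬ b ≤ g) {W : Finset L}
    (hW : W ⊆ I f B g) : G f B (g ⊔ W.sup id) = g := by
  have hWB := hW.trans (I_subset f B g)
  have h1 : g ≤ f ⊔ (B \ W).sup id := hB.le_of_subset_I hW
  have hG : G f B (g ⊔ W.sup id) = (g ⊔ W.sup id) ⊓ (f ⊔ (B \ W).sup id) := by
    rw [G, hB.Z_eq hfg hg hW]
  rw [hG]
  have hle : g ≤ (g ⊔ W.sup id) ⊓ (f ⊔ (B \ W).sup id) := le_inf le_sup_left h1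
  have h2 := hB.rk_add (S := B \ W) Finset.sdiff_subset hWB Finset.sdiff_disjoint
    (y := (g ⊔ W.sup id) ⊓ (f ⊔ (B \ W).sup id)) (hfg.trans hle) inf_le_right
  have h3 := hB.rk_add (S := B \ W) Finset.sdiff_subset hWB Finset.sdiff_disjoint
    (y := g) hfg h1
  have h4 : ((g ⊔ W.sup id) ⊓ (f ⊔ (B \ W).sup id)) ⊔ W.sup id ≤ g ⊔ W.sup id :=
    sup_le inf_le_left le_sup_right
  have h5 := rk_mono h4
  rw [h2, h3] at h5
  exact (eq_of_le_of_rk hle (by omega)).symm

/-- Exchange for atoms. -/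
theorem exch {u p b : L} (hp : IsAtom p) (hb : IsAtom b) (hpu : ¬ p ≤ u) (h : p ≤ u ⊔ b) :
    b ≤ u ⊔ p := by
  have hbu : ¬ b ≤ u := fun hbu => hpu (h.trans (sup_le le_rfl hbu))
  have h1 := rk_sup_atom hb hbu
  have h2 := rk_sup_atom hp hpu
  have h3 : u ⊔ p = u ⊔ b := eq_of_le_of_rk (sup_le le_sup_left h) (by omega)
  rw [h3]
  exact le_sup_right

/-- Decomposition of an element in the frame case. -/
theorem decomp (hat : ∀ x : L, ∃ s : Finset L, (∀ a ∈ s, IsAtom a) ∧ s.sup id = x)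
    (hB : IsBase f B) (hfr : ∀ p : L, IsAtom p → ∃ b ∈ B, ∃ b' ∈ B, p ≤ f ⊔ b ⊔ b')
    {x : L} (hfx : f ≤ x) : G f B x ⊔ (Z B x).sup id = x := by
  apply le_antisymm
  · refine sup_le inf_le_left (Finset.sup_le fun b hb => ?_)
    exact (Finset.mem_filter.mp hb).2
  · obtain ⟨s, hs, hsx⟩ := hat x
    have hkey : ∀ p ∈ s, p ≤ G f B x ⊔ (Z B x).sup id := by
      intro p hps
      have hpx : p ≤ x := by rw [← hsx]; exact Finset.le_sup (f := id) hps
      have hZle : ∀ b ∈ Z B x, b ≤ G f B x ⊔ (Z B x).sup id := fun b hb =>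
        (Finset.le_sup (f := id) hb).trans le_sup_right
      have hfle : f ≤ G f B x ⊔ (Z B x).sup id := (le_G hfx).trans le_sup_left
      obtain ⟨b, hb, b', hb', hp⟩ := hfr p (hs p hps)
      -- the mixed case
      have hmix : ∀ b ∈ B, ∀ b' ∈ B, p ≤ f ⊔ b ⊔ b' → b ∈ Z B x → b' ∉ Z B x →
          p ≤ G f B x ⊔ (Z B x).sup id := by
        intro b hb b' hb' hp hbZ hbZ'
        by_cases h1 : p ≤ f ⊔ b
        · exact h1.trans (sup_le hfle (hZle b hbZ))
        · exfalso
          have h2 := exch (hs p hps) (hB.atom b' hb') h1 hp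
          apply hbZ'
          rw [Z, Finset.mem_filter]
          refine ⟨hb', h2.trans (sup_le (sup_le hfx (Finset.mem_filter.mp hbZ).2) hpx)⟩
      by_cases h1 : b ∈ Z B x
      · by_cases h2 : b' ∈ Z B x
        · exact hp.trans (sup_le (sup_le hfle (hZle b h1)) (hZle b' h2))
        · exact hmix b hb b' hb' hp h1 h2
      · by_cases h2 : b' ∈ Z B x
        · exact hmix b' hb' b hb (by rwa [sup_right_comm]) h2 h1
        · refine le_trans (le_inf hpx (hp.trans ?_)) le_sup_left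
          refine sup_le (sup_le le_sup_left ?_) ?_
          · exact (Finset.le_sup (f := id) (Finset.mem_sdiff.mpr ⟨hb, h1⟩)).trans le_sup_right
          · exact (Finset.le_sup (f := id) (Finset.mem_sdiff.mpr ⟨hb', h2⟩)).trans le_sup_right
    calc x = s.sup id := hsx.symm
      _ ≤ G f B x ⊔ (Z B x).sup id := Finset.sup_le hkey

/-- Neighbours in the support. -/
theorem exists_nb (hat : ∀ x : L, ∃ s : Finset L, (∀ a ∈ s, IsAtom a) ∧ s.sup id = x)
    (hB : IsBase f B) (hfr : ∀ p : L, IsAtom p → ∃ b ∈ B, ∃ b' ∈ B, p ≤ f ⊔ b ⊔ b')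
    {g : L} (hfg : f ≤ g) (hg : ∀ b ∈ B, ¬ b ≤ g) {b : L} (hb : b ∈ B \ I f B g) :
    ∃ b' ∈ B \ I f B g, b' ≠ b ∧ b ≤ g ⊔ b' ∧ b' ≤ g ⊔ b := by
  rw [Finset.mem_sdiff, I, Finset.mem_filter] at hb
  have hbB := hb.1
  have hbg : ¬ g ≤ f ⊔ (B.erase b).sup id := fun h => hb.2 ⟨hbB, h⟩
  obtain ⟨s, hs, hsx⟩ := hat g
  have h1 : ∃ p ∈ s, ¬ p ≤ f ⊔ (B.erase b).sup id := by
    by_contra h
    push Not at h
    apply hbg
    rw [← hsx]
    exact Finset.sup_le h
  obtain ⟨p, hps, hp⟩ := h1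
  have hpg : p ≤ g := by rw [← hsx]; exact Finset.le_sup (f := id) hps
  have hpf : ¬ p ≤ f := fun h => hp (h.trans le_sup_left)
  -- we may write the pair as `b`, `c`
  have h2 : ∃ c ∈ B, p ≤ f ⊔ b ⊔ c := by
    obtain ⟨b1, hb1, b2, hb2, hpb⟩ := hfr p (hs p hps)
    by_cases e1 : b1 = b
    · exact ⟨b2, hb2, by rw [← e1]; exact hpb⟩
    · by_cases e2 : b2 = b
      · exact ⟨b1, hb1, by rw [← e2, sup_right_comm]; exact hpb⟩
      · exfalso
        apply hp
        refine hpb.trans (sup_le (sup_le le_sup_left ?_) ?_)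
        · exact (Finset.le_sup (f := id) (Finset.mem_erase.mpr ⟨e1, hb1⟩)).trans le_sup_right
        · exact (Finset.le_sup (f := id) (Finset.mem_erase.mpr ⟨e2, hb2⟩)).trans le_sup_right
  obtain ⟨c, hc, hpc⟩ := h2
  have hpb : ¬ p ≤ f ⊔ b := by
    intro h
    exact hg b hbB ((exch (hs p hps) (hB.atom b hbB) hpf h).trans (sup_le hfg hpg))
  have hcb : c ≠ b := by
    rintro rfl
    rw [sup_assoc, sup_idem] at hpc
    exact hpb hpc
  have hpc' : ¬ p ≤ f ⊔ c := by
    intro h
    apply hp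
    refine h.trans (sup_le le_sup_left ?_)
    exact (Finset.le_sup (f := id) (Finset.mem_erase.mpr ⟨hcb, hc⟩)).trans le_sup_right
  have hcg : c ≤ g ⊔ b := by
    refine (exch (hs p hps) (hB.atom c hc) hpb hpc).trans ?_
    exact sup_le (sup_le (hfg.trans le_sup_left) le_sup_right) (hpg.trans le_sup_left)
  have hbg' : b ≤ g ⊔ c := by
    refine (exch (hs p hps) (hB.atom b hbB) hpc' (by rwa [sup_right_comm])).trans ?_
    exact sup_le (sup_le (hfg.trans le_sup_left) le_sup_right) (hpg.trans le_sup_left)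
  refine ⟨c, ?_, hcb, hbg', hcg⟩
  rw [Finset.mem_sdiff]
  refine ⟨hc, fun hcI => ?_⟩
  rw [I, Finset.mem_filter] at hcI
  have h3 : p ≤ f ⊔ ({b, c} : Finset L).sup id := by
    rw [Finset.sup_insert, Finset.sup_singleton, id, id, ← sup_assoc]
    exact hpc
  have hsub : ({b, c} : Finset L) ⊆ B := by
    intro k hk
    rcases Finset.mem_insert.mp hk with rfl | hk
    · exact hbB
    · rw [Finset.mem_singleton] at hk; rw [hk]; exact hc
  have h4 := (le_inf h3 (hpg.trans hcI.2)).trans (hB.inf_span hsub (Finset.erase_subset c B))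
  have h5 : ({b, c} : Finset L) ∩ B.erase c ⊆ {b} := by
    intro k hk
    rw [Finset.mem_inter, Finset.mem_erase, Finset.mem_insert, Finset.mem_singleton] at hk
    rw [Finset.mem_singleton]
    rcases hk.1 with h | h
    · exact h
    · exact absurd h hk.2.1
  apply hpb
  refine h4.trans (sup_le_sup_left ((Finset.sup_mono h5).trans ?_) _)
  rw [Finset.sup_singleton, id]

/-- The support has at most twice as many elements as the relative rank. -/
theorem card_support (hat : ∀ x : L, ∃ s : Finset L, (∀ a ∈ s, IsAtom a) ∧ s.sup id = x)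
    (hB : IsBase f B) (hfr : ∀ p : L, IsAtom p → ∃ b ∈ B, ∃ b' ∈ B, p ≤ f ⊔ b ⊔ b')
    {g : L} (hfg : f ≤ g) (hg : ∀ b ∈ B, ¬ b ≤ g) :
    2 * rk f + (B \ I f B g).card ≤ 2 * rk g := by
  obtain ⟨T, hT, hTmin⟩ := Finset.exists_min_image
    ((B \ I f B g).powerset.filter (fun T => (B \ I f B g).sup id ≤ g ⊔ T.sup id))
    Finset.card ⟨B \ I f B g, by
      rw [Finset.mem_filter, Finset.mem_powerset]
      exact ⟨Finset.Subset.refl _, le_sup_right⟩⟩
  rw [Finset.mem_filter, Finset.mem_powerset] at hT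
  obtain ⟨hTS, hTs⟩ := hT
  -- minimality
  have hmin : ∀ t ∈ T, ¬ t ≤ g ⊔ (T.erase t).sup id := by
    intro t ht hle
    have h1 : T.erase t ∈ (B \ I f B g).powerset.filter
        (fun T => (B \ I f B g).sup id ≤ g ⊔ T.sup id) := by
      rw [Finset.mem_filter, Finset.mem_powerset]
      refine ⟨(Finset.erase_subset t T).trans hTS, hTs.trans (sup_le le_sup_left ?_)⟩
      refine Finset.sup_le fun k hk => ?_
      by_cases hkt : k = t
      · rw [hkt]; exact hle
      · exact (Finset.le_sup (f := id) (Finset.mem_erase.mpr ⟨hkt, hk⟩)).trans le_sup_right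
    have h2 := hTmin _ h1
    rw [Finset.card_erase_of_mem ht] at h2
    have h3 : 0 < T.card := Finset.card_pos.mpr ⟨t, ht⟩
    omega
  have hnb : ∀ t : L, ∃ u : L, t ∈ T → (u ∈ B \ I f B g ∧ u ≠ t ∧ t ≤ g ⊔ u ∧ u ≤ g ⊔ t) := by
    intro t
    by_cases ht : t ∈ T
    · obtain ⟨u, hu1, hu2, hu3, hu4⟩ := exists_nb hat hB hfr hfg hg (hTS ht)
      exact ⟨u, fun _ => ⟨hu1, hu2, hu3, hu4⟩⟩
    · exact ⟨t, fun h => absurd h ht⟩
  choose nb hnb using hnb
  have hcard : T.card ≤ ((B \ I f B g) \ T).card := by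
    apply Finset.card_le_card_of_injOn nb
    · intro t ht
      have h1 := hnb t ht
      rw [Finset.mem_coe, Finset.mem_sdiff]
      refine ⟨h1.1, fun h2 => ?_⟩
      apply hmin t ht
      refine h1.2.2.1.trans (sup_le_sup_left ?_ _)
      exact Finset.le_sup (f := id) (Finset.mem_erase.mpr ⟨h1.2.1, h2⟩)
    · intro t1 ht1 t2 ht2 h12
      by_contra hne
      have e1 := hnb t1 ht1
      have e2 := hnb t2 ht2
      apply hmin t2 ht2
      refine e2.2.2.1.trans (sup_le le_sup_left ?_)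
      rw [← h12]
      refine e1.2.2.2.trans (sup_le_sup_left ?_ _)
      exact Finset.le_sup (f := id) (Finset.mem_erase.mpr ⟨hne, ht1⟩)
  have h1 := hB.rk_span (W := B \ I f B g) Finset.sdiff_subset
  have h2 : f ⊔ (B \ I f B g).sup id ≤ g ⊔ T.sup id := sup_le (hfg.trans le_sup_left) hTs
  have h3 := rk_mono h2
  have h4 : rk (g ⊔ T.sup id) ≤ rk g + T.card :=
    rk_sup_finset_le g T id (fun b hb => hB.atom b (Finset.sdiff_subset (hTS hb)))
  have h5 := Finset.card_sdiff_add_card_eq_card hTS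
  omega

end IsBase

/-- **Frame matroids with joints have Boolean packings.** -/
theorem hasPack_frame (hat : ∀ x : L, ∃ s : Finset L, (∀ a ∈ s, IsAtom a) ∧ s.sup id = x)
    {f : L} {B : Finset L} (hB : IsBase f B)
    (hfr : ∀ p : L, IsAtom p → ∃ b ∈ B, ∃ b' ∈ B, p ≤ f ⊔ b ⊔ b') : HasPack f := by
  classical
  let ι := {g : L // f ≤ g ∧ ∀ b ∈ B, ¬ b ≤ g}
  let P : ι → Pc L := fun g =>
    ⟨g.1, (IsBase.I f B g.1).card, fun j => ((IsBase.I f B g.1).equivFin.symm j).1⟩
  have hval : ∀ (g : ι) (C : Finset (Fin (P g).n)),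
      (P g).val C = g.1 ⊔ (C.image (P g).a).sup id := by
    intro g C
    rw [Pc.val, Finset.sup_image]
    rfl
  have himg : ∀ (g : ι) (C : Finset (Fin (P g).n)), C.image (P g).a ⊆ IsBase.I f B g.1 := by
    intro g C k hk
    obtain ⟨j, _, rfl⟩ := Finset.mem_image.mp hk
    exact ((IsBase.I f B g.1).equivFin.symm j).2
  have hainj : ∀ g : ι, Function.Injective (P g).a := by
    intro g j j' h
    exact (IsBase.I f B g.1).equivFin.symm.injective (Subtype.ext h)
  have hgood : ∀ g : ι, (P g).Good := by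
    intro g
    refine ⟨fun j => hB.atom _ (IsBase.I_subset f B g.1 ((IsBase.I f B g.1).equivFin.symm j).2), ?_⟩
    intro C j hj hle
    rw [hval] at hle
    have h1 := hB.Z_eq g.2.1 g.2.2 (himg g C)
    have h2 : (P g).a j ∈ IsBase.Z B (g.1 ⊔ (C.image (P g).a).sup id) := by
      rw [IsBase.Z, Finset.mem_filter]
      exact ⟨IsBase.I_subset f B g.1 ((IsBase.I f B g.1).equivFin.symm j).2, hle⟩
    rw [h1] at h2
    obtain ⟨j', hj', he⟩ := Finset.mem_image.mp h2
    rw [hainj g he] at hj'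
    exact hj hj'
  refine ⟨ι, inferInstance, P, hgood, fun g => g.2.1, ?_, ?_, ?_⟩
  · intro g
    rw [(hgood g).rk_val, Finset.card_univ, Fintype.card_fin]
    have h1 := IsBase.card_support hat hB hfr g.2.1 g.2.2
    have h2 := Finset.card_sdiff_add_card_eq_card (IsBase.I_subset f B g.1)
    have h3 := hB.card
    change rk (⊤ : L) + rk f ≤ rk g.1 + (rk g.1 + (IsBase.I f B g.1).card)
    omega
  · intro z hz
    refine ⟨⟨IsBase.G f B z, IsBase.le_G hz, fun b hb => hB.free_G hb⟩,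
      Finset.univ.filter (fun j => (P ⟨IsBase.G f B z, IsBase.le_G hz,
        fun b hb => hB.free_G hb⟩).a j ≤ z), ?_⟩
    rw [hval]
    have h1 : (Finset.univ.filter (fun j => (P ⟨IsBase.G f B z, IsBase.le_G hz,
        fun b hb => hB.free_G hb⟩).a j ≤ z)).image (P ⟨IsBase.G f B z, IsBase.le_G hz,
        fun b hb => hB.free_G hb⟩).a = IsBase.Z B z := by
      ext k
      rw [Finset.mem_image]
      constructor
      · rintro ⟨j, hj, rfl⟩
        rw [Finset.mem_filter] at hj
        rw [IsBase.Z, Finset.mem_filter]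
        exact ⟨IsBase.I_subset f B _ ((IsBase.I f B (IsBase.G f B z)).equivFin.symm j).2, hj.2⟩
      · intro hk
        have hkI := IsBase.Z_subset_I (f := f) z hk
        refine ⟨(IsBase.I f B (IsBase.G f B z)).equivFin ⟨k, hkI⟩, ?_, ?_⟩
        · rw [Finset.mem_filter]
          refine ⟨Finset.mem_univ _, ?_⟩
          change ((IsBase.I f B (IsBase.G f B z)).equivFin.symm
            ((IsBase.I f B (IsBase.G f B z)).equivFin ⟨k, hkI⟩)).1 ≤ z
          rw [Equiv.symm_apply_apply]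
          exact (Finset.mem_filter.mp hk).2
        · change ((IsBase.I f B (IsBase.G f B z)).equivFin.symm
            ((IsBase.I f B (IsBase.G f B z)).equivFin ⟨k, hkI⟩)).1 = k
          rw [Equiv.symm_apply_apply]
    rw [h1]
    exact IsBase.decomp hat hB hfr hz
  · intro g C g' C' h
    have e1 : g.1 = g'.1 := by
      rw [← hB.G_eq g.2.1 g.2.2 (himg g C), ← hB.G_eq g'.2.1 g'.2.2 (himg g' C'),
        ← hval, ← hval, h]
    have e2 : g = g' := Subtype.ext e1
    subst e2
    exact ⟨rfl, heq_of_eq ((hgood g).inj h)⟩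

end Pool.Agent.Helper28.BPack
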