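import Pool.Agent.Helper28.BPack.Base

/-!
# Flags of locally free atoms give Boolean packings
-/

set_option autoImplicit false
set_option linter.unusedSectionVars false

namespace Pool.Agent.Helper28.BPack

variable {L : Type} [Lattice L] [BoundedOrder L] [IsUpperModularLattice L]

/-- Downward induction along a flag of locally free atoms. -/
theorem hasPack_flag [Fintype L]
    (hat : ∀ x : L, ∃ s : Finset L, (∀ a ∈ s, IsAtom a) ∧ s.sup id = x)
    (m : ℕ) (e : ℕ → L) (he : ∀ j < m, IsAtom (e j))
    (hind : ∀ j < m, ¬ e j ≤ (Finset.range j).sup e)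
    (hfree : ∀ j < m, Free ((Finset.range j).sup e) (e j))
    (hbase : HasPack ((Finset.range m).sup e)) :
    HasPack (⊥ : L) := by
  have h : ∀ k, k ≤ m → HasPack ((Finset.range (m - k)).sup e) := by
    intro k
    induction k with
    | zero => intro _; simpa using hbase
    | succ k ih =>
      intro hk
      have h1 := ih (by omega)
      have h2 : m - k = (m - (k + 1)) + 1 := by omega
      rw [h2, Finset.range_add_one, Finset.sup_insert, sup_comm] at h1
      exact HasPack.lift hat (he _ (by omega)) (hind _ (by omega)) (hfree _ (by omega)) h1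
  have h1 := h m le_rfl
  rw [Nat.sub_self, Finset.range_zero, Finset.sup_empty] at h1
  exact h1

/-- Rank of the spans of an independent sequence of atoms. -/
theorem rk_range_sup [Finite L] (m : ℕ) (e : ℕ → L) (he : ∀ j < m, IsAtom (e j))
    (hind : ∀ j < m, ¬ e j ≤ (Finset.range j).sup e) :
    ∀ j, j ≤ m → rk ((Finset.range j).sup e) = j := by
  intro j
  induction j with
  | zero => intro _; rw [Finset.range_zero, Finset.sup_empty, rk_bot]
  | succ j ih =>
    intro hj
    rw [Finset.range_add_one, Finset.sup_insert, sup_comm,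
      rk_sup_atom (he j (by omega)) (hind j (by omega)), ih (by omega)]

/-- A packing in the internal format gives one in the format of the problem. -/
theorem HasPack.to_packing [Finite L] (h : HasPack (⊥ : L)) :
    ∃ (t : ℕ) (n : Fin t → ℕ) (φ : ∀ i : Fin t, Set (Fin (n i)) → L),
      (∀ i, Function.Injective (φ i)) ∧
      (∀ i (a b : Set (Fin (n i))), a ⋖ b → φ i a ⋖ φ i b) ∧
      (∀ i, Order.height (⊤ : L) ≤ Order.height (φ i ⊥) + Order.height (φ i ⊤)) ∧
      (∀ x : L, ∃! p : (Σ i : Fin t, Set (Fin (n i))), φ p.1 p.2 = x) := by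
  classical
  obtain ⟨ι, hι, p0, hg0, hf0, hr0, hsurj0, hinj0⟩ := h
  have hι2 : Finite ι := hι
  obtain ⟨t, ⟨σ⟩⟩ := Finite.exists_equiv_fin ι
  obtain ⟨p, hp⟩ : ∃ p : Fin t → Pc L, p = fun i => p0 (σ.symm i) := ⟨_, rfl⟩
  have hg : ∀ i, (p i).Good := by rw [hp]; exact fun i => hg0 _
  have hr : ∀ i, rk (⊤ : L) + rk (⊥ : L) ≤ rk (p i).x + rk ((p i).val Finset.univ) := by
    rw [hp]; exact fun i => hr0 _
  have hsurj : ∀ z, ∃ i B, (p i).val B = z := by
    intro z
    obtain ⟨i, B, hB⟩ := hsurj0 z bot_le
    obtain ⟨i', rfl⟩ := σ.symm.surjective i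
    rw [hp]
    exact ⟨i', B, hB⟩
  have hinj : ∀ i B i' B', (p i).val B = (p i').val B' → i = i' ∧ HEq B B' := by
    rw [hp]
    intro i B i' B' h
    obtain ⟨h1, h2⟩ := hinj0 _ B _ B' h
    exact ⟨σ.symm.injective h1, h2⟩
  clear hg0 hf0 hr0 hsurj0 hinj0 hp
  refine ⟨t, fun i => (p i).n, fun i S => (p i).val (Finset.univ.filter (fun j => j ∈ S)),
    ?_, ?_, ?_, ?_⟩
  · intro i S T h
    have h1 := (hg i).inj h
    ext j
    have h2 := Finset.ext_iff.mp h1 j
    simpa using h2
  · intro i S T hST
    obtain ⟨j, hj, hjT⟩ := Set.covBy_iff_exists_insert.mp hST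
    have h1 : (Finset.univ.filter (fun k => k ∈ T)) =
        insert j (Finset.univ.filter (fun k => k ∈ S)) := by
      ext k
      rw [← hjT]
      simp
    have h2 : j ∉ (Finset.univ.filter (fun k => k ∈ S)) := by simpa using hj
    change (p i).val (Finset.univ.filter (fun j => j ∈ S)) ⋖
      (p i).val (Finset.univ.filter (fun j => j ∈ T))
    rw [h1]
    exact (hg i).covBy h2
  · intro i
    have h1 : (Finset.univ.filter (fun j : Fin (p i).n => j ∈ (⊥ : Set _))) = ∅ := by
      ext j; simp
    have h2 : (Finset.univ.filter (fun j : Fin (p i).n => j ∈ (⊤ : Set _))) =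
        Finset.univ := by
      ext j; simp
    change Order.height (⊤ : L) ≤
      Order.height ((p i).val (Finset.univ.filter (fun j => j ∈ (⊥ : Set _)))) +
      Order.height ((p i).val (Finset.univ.filter (fun j => j ∈ (⊤ : Set _))))
    rw [h1, h2, Pc.val_empty, ← coe_rk, ← coe_rk, ← coe_rk]
    have h3 := hr i
    rw [rk_bot, add_zero] at h3
    exact_mod_cast h3
  · intro x
    obtain ⟨i, B, hB⟩ := hsurj x
    refine ⟨⟨i, {j | j ∈ B}⟩, ?_, ?_⟩
    · change (p i).val _ = x
      rw [← hB]
      congr 1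
      ext j
      simp
    · rintro ⟨i', S⟩ hS
      change (p i').val (Finset.univ.filter (fun j => j ∈ S)) = x at hS
      obtain ⟨h1, h2⟩ := hinj _ _ _ _ (hS.trans hB.symm)
      subst h1
      have h3 := eq_of_heq h2
      subst h3
      congr 1
      ext j
      simp

end Pool.Agent.Helper28.BPack
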