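import Pool.Agent.Helper28.BPack.Crit

/-!
# Rank four: two skew lines such that all planes through the first meet the second
-/

set_option autoImplicit false
set_option linter.unusedSectionVars false

namespace Pool.Agent.Helper28.BPack

variable {L : Type} [Lattice L] [BoundedOrder L] [Finite L] [IsUpperModularLattice L]

theorem atom_eq {a b : L} (ha : IsAtom a) (hb : IsAtom b) (h : a ≤ b) : a = b :=
  eq_of_le_of_rk h (by rw [rk_atom ha, rk_atom hb])

/-- The line through two atoms. -/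
theorem rk_line {a b : L} (ha : IsAtom a) (hb : IsAtom b) (h : a ≠ b) : rk (a ⊔ b) = 2 := by
  rw [rk_sup_atom hb (fun hle => h (atom_eq hb ha hle).symm), rk_atom ha]

theorem line_eq {a b w : L} (ha : IsAtom a) (hb : IsAtom b) (h : a ≠ b) (haw : a ≤ w)
    (hbw : b ≤ w) (hw : rk w = 2) : a ⊔ b = w :=
  eq_of_le_of_rk (sup_le haw hbw) (by rw [hw, rk_line ha hb h])

theorem inf_atom {w u x : L} (hx : IsAtom x) (hxw : x ≤ w) (hxu : x ≤ u) (hu : rk u = 2)
    (hn : ¬ u ≤ w) : w ⊓ u = x := by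
  have h1 : x ≤ w ⊓ u := le_inf hxw hxu
  have h2 : w ⊓ u < u := lt_of_le_of_ne inf_le_right (fun h => hn (h ▸ inf_le_left))
  have h3 := rk_lt h2
  have h4 := rk_mono h1
  rw [rk_atom hx] at h4
  exact (eq_of_le_of_rk h1 (by rw [rk_atom hx]; omega)).symm

theorem exists_two_atoms (hat : ∀ x : L, ∃ s : Finset L, (∀ a ∈ s, IsAtom a) ∧ s.sup id = x)
    {w : L} (hw : rk w = 2) : ∃ a b, IsAtom a ∧ IsAtom b ∧ a ≠ b ∧ a ≤ w ∧ b ≤ w := by
  obtain ⟨a, ha, haw, -⟩ := exists_atom hat (x := ⊥) (y := w) (fun h => by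
    have := rk_mono h
    rw [rk_bot] at this
    omega)
  obtain ⟨b, hb, hbw, hba⟩ := exists_atom hat (x := a) (y := w) (fun h => by
    have := rk_mono h
    rw [rk_atom ha] at this
    omega)
  exact ⟨a, b, ha, hb, fun h => hba (h ▸ le_rfl), haw, hbw⟩

/-- Data: two skew lines. -/
structure Skew (u v : L) : Prop where
  hr : rk (⊤ : L) = 4
  hu : rk u = 2
  hv : rk v = 2
  huv : u ⊔ v = ⊤

namespace Skew

variable {u v : L}

theorem symm (h : Skew u v) : Skew v u := ⟨h.hr, h.hv, h.hu, by rw [sup_comm, h.huv]⟩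

theorem rk3 (h : Skew u v) {q : L} (hq : IsAtom q) (hqu : ¬ q ≤ u) : rk (u ⊔ q) = 3 := by
  rw [rk_sup_atom hq hqu, h.hu]

theorem not_le_of_rk (h : Skew u v) {w : L} (hw : rk w = 3) (hu : u ≤ w) : ¬ v ≤ w := by
  intro hv
  have h1 : (⊤ : L) ≤ w := h.huv ▸ sup_le hu hv
  have h2 := rk_mono h1
  rw [h.hr, hw] at h2
  omega

theorem inf_bot (h : Skew u v) (hat : ∀ x : L, ∃ s : Finset L, (∀ a ∈ s, IsAtom a) ∧ s.sup id = x)
    {a : L} (ha : IsAtom a) (hau : a ≤ u) : ¬ a ≤ v := by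
  intro hav
  obtain ⟨b, hb, hbv, hba⟩ := exists_atom hat (x := a) (y := v) (fun h1 => by
    have := rk_mono h1
    rw [rk_atom ha, h.hv] at this
    omega)
  have h1 : a ⊔ b = v := line_eq ha hb (fun h2 => hba (h2 ▸ le_rfl)) hav hbv h.hv
  have h2 : (⊤ : L) ≤ u ⊔ b := by
    rw [← h.huv, ← h1]
    exact sup_le le_sup_left (sup_le (hau.trans le_sup_left) le_sup_right)
  have h3 := rk_mono h2
  have h4 := rk_sup_atom_le (x := u) hb
  rw [h.hr] at h3
  rw [h.hu] at h4
  omega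

/-- The intersection of a plane through `u` with `v`. -/
theorem inf_cases (h : Skew u v) {w : L} (hw : rk w = 3) (hu : u ≤ w) :
    w ⊓ v = ⊥ ∨ IsAtom (w ⊓ v) := by
  have h1 : w ⊓ v < v := lt_of_le_of_ne inf_le_right
    (fun h1 => h.not_le_of_rk hw hu (h1 ▸ inf_le_left))
  have h2 := rk_lt h1
  rw [h.hv] at h2
  by_cases h0 : rk (w ⊓ v) = 0
  · exact Or.inl (eq_bot_of_rk h0)
  · exact Or.inr (atom_of_rk (by omega))

/-- The points to be treated by cones. -/
def CT (u v q : L) : Prop := IsAtom q ∧ ¬ q ≤ u ∧ ¬ q ≤ v ∧ (u ⊔ q) ⊓ v ≠ ⊥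

theorem CT.z {q : L} (h : Skew u v) (hq : CT u v q) : IsAtom ((u ⊔ q) ⊓ v) :=
  (h.inf_cases (h.rk3 hq.1 hq.2.1) le_sup_left).resolve_left hq.2.2.2

open Classical in
/-- The atoms below an element. -/
noncomputable def At [Fintype L] (w : L) : Finset L :=
  Finset.univ.filter (fun a => IsAtom a ∧ a ≤ w)

theorem mem_At [Fintype L] {w a : L} : a ∈ At w ↔ IsAtom a ∧ a ≤ w := by
  classical
  simp [At]

/-- The primary matching. -/
theorem primary [Fintype L] (h : Skew u v)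
    (hat : ∀ x : L, ∃ s : Finset L, (∀ a ∈ s, IsAtom a) ∧ s.sup id = x)
    (hlen : ∀ w, rk w = 2 → w ⊓ u ≠ ⊥ → w ⊓ v = ⊥ → (At w).card ≤ (At u).card) :
    ∃ x : L → L, (∀ q, CT u v q → IsAtom (x q) ∧ x q ≤ u ∧ ¬ (u ⊔ q) ⊓ v ≤ q ⊔ x q) ∧
      ∀ q q', CT u v q → CT u v q' → q ⊔ x q = q' ⊔ x q' → q = q' := by
  classical
  have hcard2 : 2 ≤ (At u).card := by
    obtain ⟨a, b, ha, hb, hab, hau, hbu⟩ := exists_two_atoms hat h.hu
    have h1 : ({a, b} : Finset L) ⊆ At u := by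
      intro k hk
      rw [Finset.mem_insert, Finset.mem_singleton] at hk
      rcases hk with rfl | rfl
      · exact mem_At.mpr ⟨ha, hau⟩
      · exact mem_At.mpr ⟨hb, hbu⟩
    have h2 := Finset.card_le_card h1
    rwa [Finset.card_pair hab] at h2
  let X := {q : L // CT u v q}
  let T : X → Finset L := fun q =>
    ((At u).filter (fun α => ¬ (u ⊔ q.1) ⊓ v ≤ q.1 ⊔ α)).image (fun α => q.1 ⊔ α)
  have hqα : ∀ q : X, ∀ α ∈ At u, q.1 ≠ α := fun q α hα h1 => q.2.2.1 (h1 ▸ (mem_At.mp hα).2)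
  have hinf : ∀ q : X, ∀ α ∈ At u, (q.1 ⊔ α) ⊓ u = α := by
    intro q α hα
    have h1 := mem_At.mp hα
    apply inf_atom h1.1 le_sup_right h1.2 h.hu
    intro h2
    have h3 : u = q.1 ⊔ α := eq_of_le_of_rk h2 (by rw [rk_line q.2.1 h1.1 (hqα q α hα), h.hu])
    exact q.2.2.1 (le_sup_left.trans h3.symm.le)
  have hinjα : ∀ q : X, ∀ α ∈ At u, ∀ α' ∈ At u, q.1 ⊔ α = q.1 ⊔ α' → α = α' := by
    intro q α hα α' hα' h1
    rw [← hinf q α hα, ← hinf q α' hα', h1]
  have hTcard : ∀ q : X, (At u).card - 1 ≤ (T q).card := by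
    intro q
    have h1 : (T q).card = ((At u).filter (fun α => ¬ (u ⊔ q.1) ⊓ v ≤ q.1 ⊔ α)).card := by
      apply Finset.card_image_of_injOn
      intro α hα α' hα' h1
      exact hinjα q α (Finset.mem_filter.mp (Finset.mem_coe.mp hα)).1 α'
        (Finset.mem_filter.mp (Finset.mem_coe.mp hα')).1 h1
    have hz := CT.z h q.2
    have hzq : q.1 ≠ (u ⊔ q.1) ⊓ v := fun h1 => q.2.2.2.1 (by rw [h1]; exact inf_le_right)
    have h2 : ((At u).filter (fun α => (u ⊔ q.1) ⊓ v ≤ q.1 ⊔ α)).card ≤ 1 := by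
      rw [Finset.card_le_one]
      intro α hα α' hα'
      rw [Finset.mem_filter] at hα hα'
      apply hinjα q α hα.1 α' hα'.1
      rw [← line_eq q.2.1 hz hzq le_sup_left hα.2
          (rk_line q.2.1 (mem_At.mp hα.1).1 (hqα q α hα.1)),
        line_eq q.2.1 hz hzq le_sup_left hα'.2
          (rk_line q.2.1 (mem_At.mp hα'.1).1 (hqα q α' hα'.1))]
    have h3 := Finset.card_filter_add_card_filter_not (s := At u)
      (fun α => (u ⊔ q.1) ⊓ v ≤ q.1 ⊔ α)
    omega
  have hHall : ∀ s : Finset X, s.card ≤ (s.biUnion T).card := by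
    intro s
    have h1 : s.card * ((At u).card - 1) ≤ (s.biUnion T).card * ((At u).card - 1) := by
      apply Finset.card_mul_le_card_mul (fun x m => m ∈ T x)
      · intro x hx
        refine (hTcard x).trans (Finset.card_le_card ?_)
        intro m hm
        rw [Finset.mem_bipartiteAbove]
        exact ⟨Finset.mem_biUnion.mpr ⟨x, hx, hm⟩, hm⟩
      · intro m hm
        obtain ⟨x0, hx0, hm0⟩ := Finset.mem_biUnion.mp hm
        obtain ⟨α, hα, rfl⟩ := Finset.mem_image.mp hm0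
        have hα0 := (Finset.mem_filter.mp hα).2
        have hα1 := (Finset.mem_filter.mp hα).1
        have hα2 := mem_At.mp hα1
        have h2 : (s.bipartiteBelow (fun x m => m ∈ T x) (x0.1 ⊔ α)).card ≤
            ((At (x0.1 ⊔ α)).erase α).card := by
          rw [← Finset.card_map (Function.Embedding.subtype _)]
          apply Finset.card_le_card
          intro x hx
          obtain ⟨y, hy, rfl⟩ := Finset.mem_map.mp hx
          rw [Finset.mem_bipartiteBelow] at hy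
          obtain ⟨β, hβ, hβ2⟩ := Finset.mem_image.mp hy.2
          rw [Finset.mem_erase, mem_At]
          refine ⟨hqα y α hα1, y.2.1, ?_⟩
          change y.1 ≤ x0.1 ⊔ α
          rw [← hβ2]
          exact le_sup_left
        have h3 : α ∈ At (x0.1 ⊔ α) := mem_At.mpr ⟨hα2.1, le_sup_right⟩
        rw [Finset.card_erase_of_mem h3] at h2
        have h4 := hlen (x0.1 ⊔ α) (rk_line x0.2.1 hα2.1 (hqα x0 α hα1)) (by
            rw [hinf x0 α hα1]
            exact hα2.1.1) (by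
            by_contra hne
            have h5 : (x0.1 ⊔ α) ⊓ v ≤ (u ⊔ x0.1) ⊓ v :=
              inf_le_inf_right v (sup_le le_sup_right (hα2.2.trans le_sup_left))
            have hz := CT.z h x0.2
            rcases hz.le_iff.mp h5 with h6 | h6
            · exact hne h6
            · exact hα0 (h6 ▸ inf_le_left))
        omega
    exact Nat.le_of_mul_le_mul_right h1 (by omega)
  obtain ⟨G, hGinj, hGT⟩ := (Finset.all_card_le_biUnion_card_iff_exists_injective T).mp hHall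
  have hG : ∀ q : L, ∃ α : L, ∀ hq : CT u v q, α ∈ At u ∧ G ⟨q, hq⟩ = q ⊔ α ∧
      ¬ (u ⊔ q) ⊓ v ≤ q ⊔ α := by
    intro q
    by_cases hq : CT u v q
    · obtain ⟨α, hα, h1⟩ := Finset.mem_image.mp (hGT ⟨q, hq⟩)
      rw [Finset.mem_filter] at hα
      exact ⟨α, fun _ => ⟨hα.1, h1.symm, hα.2⟩⟩
    · exact ⟨q, fun h1 => absurd h1 hq⟩
  choose x hx using hG
  refine ⟨x, fun q hq => ⟨(mem_At.mp (hx q hq).1).1, (mem_At.mp (hx q hq).1).2, (hx q hq).2.2⟩, ?_⟩
  intro q q' hq hq' h1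
  have h2 : G ⟨q, hq⟩ = G ⟨q', hq'⟩ := by rw [(hx q hq).2.1, (hx q' hq').2.1, h1]
  exact congrArg Subtype.val (hGinj h2)

/-- A fixed-point-free permutation of the atoms of `v`. -/
theorem exists_derangement [Fintype L] (h : Skew u v)
    (hat : ∀ x : L, ∃ s : Finset L, (∀ a ∈ s, IsAtom a) ∧ s.sup id = x) :
    ∃ σ : L → L, (∀ z, IsAtom z → z ≤ v → IsAtom (σ z) ∧ σ z ≤ v ∧ σ z ≠ z) ∧
      ∀ z z', IsAtom z → z ≤ v → IsAtom z' → z' ≤ v → σ z = σ z' → z = z' := by
  classical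
  obtain ⟨a, b, ha, hb, hab, hav, hbv⟩ := exists_two_atoms hat h.hv
  let V := {z : L // IsAtom z ∧ z ≤ v}
  have hcard : 2 ≤ Fintype.card V := by
    have : Nontrivial V := ⟨⟨⟨a, ha, hav⟩, ⟨b, hb, hbv⟩, fun h1 => hab (congrArg Subtype.val h1)⟩⟩
    exact Fintype.one_lt_card
  let e := Fintype.equivFin V
  let ρ : Equiv.Perm V := (e.trans (finRotate (Fintype.card V))).trans e.symm
  have hρ : ∀ z : V, ρ z ≠ z := by
    intro z h1
    have h2 : finRotate (Fintype.card V) (e z) = e z := by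
      have := congrArg e h1
      simpa [ρ] using this
    have h3 := support_finRotate_of_le hcard
    have h4 : e z ∈ (finRotate (Fintype.card V)).support := by rw [h3]; exact Finset.mem_univ _
    rw [Equiv.Perm.mem_support] at h4
    exact h4 h2
  refine ⟨fun z => if hz : IsAtom z ∧ z ≤ v then (ρ ⟨z, hz⟩).1 else z, ?_, ?_⟩
  · intro z hz hzv
    simp only [dif_pos (And.intro hz hzv)]
    refine ⟨(ρ ⟨z, hz, hzv⟩).2.1, (ρ ⟨z, hz, hzv⟩).2.2, fun h1 => hρ ⟨z, hz, hzv⟩ (Subtype.ext h1)⟩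
  · intro z z' hz hzv hz' hzv' h1
    simp only [dif_pos (And.intro hz hzv), dif_pos (And.intro hz' hzv')] at h1
    exact congrArg Subtype.val (ρ.injective (Subtype.ext h1))

end Skew

end Pool.Agent.Helper28.BPack
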