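import Pool.Agent.Helper28.BPack.Pack

/-!
# Intervals of rank three
-/

set_option autoImplicit false
set_option linter.unusedSectionVars false

namespace Pool.Agent.Helper28.BPack

variable {L : Type} [Lattice L] [BoundedOrder L] [Finite L] [IsUpperModularLattice L]

theorem good_of_rk {p : Pc L} (ha : ∀ j, IsAtom (p.a j))
    (hr : rk (p.val Finset.univ) = rk p.x + p.n) : p.Good := by
  classical
  refine ⟨ha, ?_⟩
  intro B j hj hle
  have h1 : B ⊆ Finset.univ.erase j := fun k hk =>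
    Finset.mem_erase.mpr ⟨fun h => hj (h ▸ hk), Finset.mem_univ k⟩
  have h2 : p.val Finset.univ = p.val (Finset.univ.erase j) := by
    have h3 : (Finset.univ : Finset (Fin p.n)) = insert j (Finset.univ.erase j) :=
      (Finset.insert_erase (Finset.mem_univ j)).symm
    conv_lhs => rw [h3, Pc.val_insert]
    exact sup_eq_left.mpr (hle.trans (p.val_mono h1))
  have h3 := rk_sup_finset_le p.x (Finset.univ.erase j) p.a (fun k _ => ha k)
  have h4 : (Finset.univ.erase j).card = p.n - 1 := by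
    rw [Finset.card_erase_of_mem (Finset.mem_univ j), Finset.card_univ, Fintype.card_fin]
  have h5 : 0 < p.n := lt_of_le_of_lt (Nat.zero_le _) j.2
  have h6 : rk (p.val (Finset.univ.erase j)) ≤ rk p.x + (p.n - 1) := by
    rw [← h4]; exact h3
  rw [← h2, hr] at h6
  omega

/-- An atom below `y` and not below `x`. -/
theorem exists_atom (hat : ∀ x : L, ∃ s : Finset L, (∀ a ∈ s, IsAtom a) ∧ s.sup id = x)
    {x y : L} (h : ¬ y ≤ x) : ∃ b, IsAtom b ∧ b ≤ y ∧ ¬ b ≤ x := by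
  obtain ⟨s, hs, hsy⟩ := hat y
  by_contra hcon
  push Not at hcon
  apply h
  rw [← hsy]
  apply Finset.sup_le
  intro b hb
  exact hcon b (hs b hb) (by rw [← hsy]; exact Finset.le_sup (f := id) hb)

theorem exists_atom_cov (hat : ∀ x : L, ∃ s : Finset L, (∀ a ∈ s, IsAtom a) ∧ s.sup id = x)
    {x y : L} (h : x ⋖ y) : ∃ b, IsAtom b ∧ x ⊔ b = y := by
  obtain ⟨b, hb, hby, hbx⟩ := exists_atom hat (not_le_of_gt h.lt)
  refine ⟨b, hb, ?_⟩
  exact eq_of_le_of_rk (sup_le h.le hby) (by rw [rk_covBy h, rk_sup_atom hb hbx])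

section

variable {f : L}

theorem pt_rk {u : L} (hu : f ⋖ u) : rk u = rk f + 1 := rk_covBy hu

theorem pt_not_le {u v : L} (hu : f ⋖ u) (hv : f ⋖ v) (h : u ≠ v) : ¬ v ≤ u := fun hle =>
  h (eq_of_le_of_rk hle (by rw [pt_rk hu, pt_rk hv])).symm

theorem rk_sup_pt {u v : L} (hu : f ⋖ u) (hv : f ⋖ v) (h : u ≠ v) : rk (u ⊔ v) = rk f + 2 := by
  rw [rk_covBy (covBy_sup_of_covBy hu.le hv (pt_not_le hu hv h)), pt_rk hu]

theorem sup_pt {u v m : L} (hu : f ⋖ u) (hv : f ⋖ v) (h : u ≠ v) (hum : u ≤ m) (hvm : v ≤ m)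
    (hm : rk m = rk f + 2) : u ⊔ v = m :=
  eq_of_le_of_rk (sup_le hum hvm) (by rw [rk_sup_pt hu hv h, hm])

/-- A point not below a given element. -/
theorem exists_pt (hat : ∀ x : L, ∃ s : Finset L, (∀ a ∈ s, IsAtom a) ∧ s.sup id = x)
    {m : L} (hfm : f ≤ m) (hm : m ≠ ⊤) : ∃ c, f ⋖ c ∧ ¬ c ≤ m := by
  obtain ⟨b, hb, -, hbm⟩ := exists_atom hat (fun h : (⊤ : L) ≤ m => hm (top_le_iff.mp h))
  exact ⟨f ⊔ b, covBy_sup_atom hb (fun h => hbm (h.trans hfm)),
    fun h => hbm (le_sup_right.trans h)⟩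

end

/-- The combinatorial core of the rank three case: points, a longest line and a matching. -/
theorem rank_three_core [Fintype L]
    (hat : ∀ x : L, ∃ s : Finset L, (∀ a ∈ s, IsAtom a) ∧ s.sup id = x) {f : L}
    (hr : rk (⊤ : L) = rk f + 3) :
    ∃ a0 a1 c : L, f ⋖ a0 ∧ f ⋖ a1 ∧ f ⋖ c ∧ a0 ≠ a1 ∧ ¬ c ≤ a0 ⊔ a1 ∧
      ∃ F : {y : L // f ⋖ y ∧ y ≠ a0 ∧ y ≠ a1 ∧ y ≠ c} → L, Function.Injective F ∧
        (∀ y, y.1 < F y ∧ rk (F y) = rk f + 2) ∧
        (∀ y, F y ≠ a0 ⊔ a1 ∧ F y ≠ a0 ⊔ c ∧ F y ≠ a1 ⊔ c) := by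
  classical
  set Pt : Finset L := Finset.univ.filter (fun x => f ⋖ x) with hPt
  set P : L → Finset L := fun m => Pt.filter (fun x => x ≤ m) with hP
  have memP : ∀ m x, x ∈ P m ↔ f ⋖ x ∧ x ≤ m := fun m x => by
    simp only [hP, hPt, Finset.mem_filter, Finset.mem_univ, true_and]
  -- a first line
  have hftop : f ≠ ⊤ := by rintro rfl; omega
  obtain ⟨u, hu, -⟩ := exists_pt hat (le_refl f) hftop
  have hutop : u ≠ ⊤ := by
    rintro rfl
    have := pt_rk hu
    omega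
  obtain ⟨v, hv, hvu⟩ := exists_pt hat hu.le hutop
  have huv : u ≠ v := by rintro rfl; exact hvu (le_refl _)
  set Ln : Finset L := Finset.univ.filter (fun m => f ≤ m ∧ rk m = rk f + 2) with hLn
  have hLnne : Ln.Nonempty := ⟨u ⊔ v, by
    rw [hLn, Finset.mem_filter]
    exact ⟨Finset.mem_univ _, hu.le.trans le_sup_left, rk_sup_pt hu hv huv⟩⟩
  obtain ⟨l, hl, hlmax⟩ := Finset.exists_max_image Ln (fun m => (P m).card) hLnne
  have hl' : f ≤ l ∧ rk l = rk f + 2 := (Finset.mem_filter.mp hl).2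
  have hmax : ∀ m, f ≤ m → rk m = rk f + 2 → (P m).card ≤ (P l).card := fun m h1 h2 =>
    hlmax m (by rw [hLn, Finset.mem_filter]; exact ⟨Finset.mem_univ _, h1, h2⟩)
  have hcard2 : 2 ≤ (P l).card := by
    have h1 := hmax (u ⊔ v) (hu.le.trans le_sup_left) (rk_sup_pt hu hv huv)
    have h2 : ({u, v} : Finset L) ⊆ P (u ⊔ v) := by
      intro x hx
      rw [Finset.mem_insert, Finset.mem_singleton] at hx
      rw [memP]
      rcases hx with rfl | rfl
      · exact ⟨hu, le_sup_left⟩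
      · exact ⟨hv, le_sup_right⟩
    have h3 := Finset.card_le_card h2
    rw [Finset.card_pair huv] at h3
    omega
  obtain ⟨a0, ha0, a1, ha1, ha01⟩ := Finset.one_lt_card.mp (show 1 < (P l).card by omega)
  rw [memP] at ha0 ha1
  have hl01 : a0 ⊔ a1 = l := sup_pt ha0.1 ha1.1 ha01 ha0.2 ha1.2 hl'.2
  have hltop : l ≠ ⊤ := by
    rintro rfl
    have := hl'.2
    omega
  obtain ⟨c, hc, hcl⟩ := exists_pt hat hl'.1 hltop
  refine ⟨a0, a1, c, ha0.1, ha1.1, hc, ha01, by rw [hl01]; exact hcl, ?_⟩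
  rw [hl01]
  -- Hall's theorem
  let X := {x : L // f ⋖ x ∧ ¬ x ≤ l ∧ x ≠ c}
  let T : X → Finset L := fun x => ((P l).filter (fun α => ¬ c ≤ x.1 ⊔ α)).image (fun α => x.1 ⊔ α)
  have hxα : ∀ x : X, ∀ α ∈ P l, x.1 ≠ α := fun x α hα h => x.2.2.1 (h ▸ ((memP l α).mp hα).2)
  have hinjα : ∀ x : X, ∀ α ∈ P l, ∀ α' ∈ P l, x.1 ⊔ α = x.1 ⊔ α' → α = α' := by
    intro x α hα α' hα' h
    by_contra hne
    have h1 := (memP l α).mp hα
    have h2 := (memP l α').mp hα'
    have h3 : α ⊔ α' = x.1 ⊔ α := sup_pt h1.1 h2.1 hne le_sup_right (h ▸ le_sup_right)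
      (rk_sup_pt x.2.1 h1.1 (hxα x α hα))
    have h4 : α ⊔ α' = l := sup_pt h1.1 h2.1 hne h1.2 h2.2 hl'.2
    have h5 : x.1 ≤ α ⊔ α' := h3.symm ▸ le_sup_left
    exact x.2.2.1 (h5.trans h4.le)
  have hTcard : ∀ x : X, (P l).card - 1 ≤ (T x).card := by
    intro x
    have h1 : (T x).card = ((P l).filter (fun α => ¬ c ≤ x.1 ⊔ α)).card := by
      apply Finset.card_image_of_injOn
      intro α hα α' hα' h
      exact hinjα x α (Finset.mem_filter.mp (Finset.mem_coe.mp hα)).1 α'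
        (Finset.mem_filter.mp (Finset.mem_coe.mp hα')).1 h
    have h2 : ((P l).filter (fun α => c ≤ x.1 ⊔ α)).card ≤ 1 := by
      rw [Finset.card_le_one]
      intro α hα α' hα'
      rw [Finset.mem_filter] at hα hα'
      have h3 := (memP l α).mp hα.1
      have h4 := (memP l α').mp hα'.1
      apply hinjα x α hα.1 α' hα'.1
      rw [← sup_pt x.2.1 hc x.2.2.2 le_sup_left hα.2 (rk_sup_pt x.2.1 h3.1 (hxα x α hα.1)),
        sup_pt x.2.1 hc x.2.2.2 le_sup_left hα'.2 (rk_sup_pt x.2.1 h4.1 (hxα x α' hα'.1))]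
    have h3 := Finset.card_filter_add_card_filter_not (s := P l) (fun α => c ≤ x.1 ⊔ α)
    omega
  have hHall : ∀ s : Finset X, s.card ≤ (s.biUnion T).card := by
    intro s
    have h1 : s.card * ((P l).card - 1) ≤ (s.biUnion T).card * ((P l).card - 1) := by
      apply Finset.card_mul_le_card_mul (fun x m => m ∈ T x)
      · intro x hx
        refine (hTcard x).trans (Finset.card_le_card ?_)
        intro m hm
        rw [Finset.mem_bipartiteAbove]
        exact ⟨Finset.mem_biUnion.mpr ⟨x, hx, hm⟩, hm⟩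
      · intro m hm
        obtain ⟨x0, hx0, hm0⟩ := Finset.mem_biUnion.mp hm
        obtain ⟨α, hα, rfl⟩ := Finset.mem_image.mp hm0
        have hα1 := (Finset.mem_filter.mp hα).1
        have hα2 := (memP l α).mp hα1
        have h2 : (s.bipartiteBelow (fun x m => m ∈ T x) (x0.1 ⊔ α)).card ≤
            ((P (x0.1 ⊔ α)).erase α).card := by
          rw [← Finset.card_map (Function.Embedding.subtype _)]
          apply Finset.card_le_card
          intro x hx
          obtain ⟨y, hy, rfl⟩ := Finset.mem_map.mp hx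
          rw [Finset.mem_bipartiteBelow] at hy
          obtain ⟨β, hβ, hβ2⟩ := Finset.mem_image.mp hy.2
          rw [Finset.mem_erase, memP]
          refine ⟨hxα y α hα1, y.2.1, ?_⟩
          change y.1 ≤ x0.1 ⊔ α
          rw [← hβ2]
          exact le_sup_left
        have h3 : α ∈ P (x0.1 ⊔ α) := (memP _ _).mpr ⟨hα2.1, le_sup_right⟩
        rw [Finset.card_erase_of_mem h3] at h2
        have h4 := hmax (x0.1 ⊔ α) (x0.2.1.le.trans le_sup_left)
          (rk_sup_pt x0.2.1 hα2.1 (hxα x0 α hα1))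
        omega
    exact Nat.le_of_mul_le_mul_right h1 (by omega)
  obtain ⟨G, hGinj, hGT⟩ := (Finset.all_card_le_biUnion_card_iff_exists_injective T).mp hHall
  have hG : ∀ x : X, ∃ α, α ∈ P l ∧ G x = x.1 ⊔ α ∧ ¬ c ≤ G x := by
    intro x
    obtain ⟨α, hα, h⟩ := Finset.mem_image.mp (hGT x)
    rw [Finset.mem_filter] at hα
    exact ⟨α, hα.1, h.symm, h ▸ hα.2⟩
  let Y := {y : L // f ⋖ y ∧ y ≠ a0 ∧ y ≠ a1 ∧ y ≠ c}
  let F : Y → L := fun y => if h : y.1 ≤ l then y.1 ⊔ c else G ⟨y.1, y.2.1, h, y.2.2.2.2⟩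
  have hF1 : ∀ y : Y, y.1 ≤ l → F y = y.1 ⊔ c := fun y h => dif_pos h
  have hF2 : ∀ y : Y, ∀ h : ¬ y.1 ≤ l, F y = G ⟨y.1, y.2.1, h, y.2.2.2.2⟩ := fun y h => dif_neg h
  have hcF1 : ∀ y : Y, y.1 ≤ l → c ≤ F y := fun y h => by rw [hF1 y h]; exact le_sup_right
  have hcF2 : ∀ y : Y, ¬ y.1 ≤ l → ¬ c ≤ F y := fun y h => by
    obtain ⟨α, -, -, h3⟩ := hG ⟨y.1, y.2.1, h, y.2.2.2.2⟩
    rwa [hF2 y h]
  -- two lines through `c` meeting `l` in different points are different
  have hcc : ∀ y z : L, f ⋖ y → f ⋖ z → y ≤ l → z ≤ l → y ⊔ c = z ⊔ c → y = z := by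
    intro y z hy hz hyl hzl h
    by_contra hne
    have hyc : y ≠ c := fun h => hcl (h ▸ hyl)
    have h1 : y ⊔ z = y ⊔ c := sup_pt hy hz hne le_sup_left (h ▸ le_sup_left)
      (rk_sup_pt hy hc hyc)
    have h2 : y ⊔ z ≤ l := sup_le hyl hzl
    exact hcl (le_sup_right.trans (h1 ▸ h2))
  refine ⟨F, ?_, ?_, ?_⟩
  · intro y z h
    by_cases hy : y.1 ≤ l
    · by_cases hz : z.1 ≤ l
      · rw [hF1 y hy, hF1 z hz] at h
        exact Subtype.ext (hcc y.1 z.1 y.2.1 z.2.1 hy hz h)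
      · exact absurd (h ▸ hcF1 y hy) (hcF2 z hz)
    · by_cases hz : z.1 ≤ l
      · exact absurd (h.symm ▸ hcF1 z hz) (hcF2 y hy)
      · rw [hF2 y hy, hF2 z hz] at h
        have h2 := congrArg Subtype.val (hGinj h)
        exact Subtype.ext h2
  · intro y
    by_cases hy : y.1 ≤ l
    · rw [hF1 y hy]
      refine ⟨?_, rk_sup_pt y.2.1 hc y.2.2.2.2⟩
      refine lt_of_le_of_ne le_sup_left (fun h => ?_)
      have h1 := rk_sup_pt y.2.1 hc y.2.2.2.2
      have h2 := pt_rk y.2.1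
      rw [← h] at h1
      omega
    · obtain ⟨α, hα, h2, -⟩ := hG ⟨y.1, y.2.1, hy, y.2.2.2.2⟩
      rw [hF2 y hy, h2]
      have hα2 := (memP l α).mp hα
      have hne : y.1 ≠ α := fun h => hy (h ▸ hα2.2)
      have h1 := rk_sup_pt y.2.1 hα2.1 hne
      refine ⟨lt_of_le_of_ne le_sup_left (fun h => ?_), h1⟩
      have h3 := pt_rk y.2.1
      have h4 : rk (y.1 ⊔ α) = rk y.1 := by
        conv_rhs => rw [h]
      omega
  · intro y
    by_cases hy : y.1 ≤ l
    · refine ⟨fun h => hcl (h ▸ hcF1 y hy), fun h => ?_, fun h => ?_⟩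
      · rw [hF1 y hy] at h
        exact y.2.2.1 (hcc y.1 a0 y.2.1 ha0.1 hy ha0.2 h)
      · rw [hF1 y hy] at h
        exact y.2.2.2.1 (hcc y.1 a1 y.2.1 ha1.1 hy ha1.2 h)
    · refine ⟨fun h => ?_, fun h => ?_, fun h => ?_⟩
      · obtain ⟨α, hα, h2, -⟩ := hG ⟨y.1, y.2.1, hy, y.2.2.2.2⟩
        rw [hF2 y hy, h2] at h
        exact hy (by rw [← h]; exact le_sup_left)
      · exact hcF2 y hy (by rw [h]; exact le_sup_right)
      · exact hcF2 y hy (by rw [h]; exact le_sup_right)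

/-- Values of a piece with three atoms. -/
theorem fin3_cases (B : Finset (Fin 3)) :
    (B.card = 1 → B = {0} ∨ B = {1} ∨ B = {2}) ∧
    (B.card = 2 → B = {0, 1} ∨ B = {0, 2} ∨ B = {1, 2}) := by
  revert B
  decide

theorem fin1_cases (B : Finset (Fin 1)) : B = ∅ ∨ B = {0} := by
  revert B
  decide

/-- **Intervals of rank three.** -/
theorem hasPack_three
    (hat : ∀ x : L, ∃ s : Finset L, (∀ a ∈ s, IsAtom a) ∧ s.sup id = x) {f : L}
    (hr : rk (⊤ : L) = rk f + 3) : HasPack f := by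
  classical
  have := Fintype.ofFinite L
  obtain ⟨a0, a1, c, ha0, ha1, hc, ha01, hcl, F, hFinj, hF, hFne⟩ := rank_three_core hat hr
  obtain ⟨b0, hb0, hfb0⟩ := exists_atom_cov hat ha0
  obtain ⟨b1, hb1, hfb1⟩ := exists_atom_cov hat ha1
  obtain ⟨b2, hb2, hfb2⟩ := exists_atom_cov hat hc
  let Y := {y : L // f ⋖ y ∧ y ≠ a0 ∧ y ≠ a1 ∧ y ≠ c}
  have hG : ∀ y : Y, ∃ d, IsAtom d ∧ y.1 ⊔ d = F y := fun y =>
    exists_atom_cov hat (covBy_of_rk (hF y).1.le (by rw [(hF y).2, pt_rk y.2.1]))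
  choose d hd hyd using hG
  let pm : Pc L := ⟨f, 3, ![b0, b1, b2]⟩
  let py : Y → Pc L := fun y => ⟨y.1, 1, ![d y]⟩
  -- values of the main piece
  have v0 : pm.val ({0} : Finset (Fin 3)) = a0 := by
    change f ⊔ ({0} : Finset (Fin 3)).sup ![b0, b1, b2] = a0
    simpa using hfb0
  have v1 : pm.val ({1} : Finset (Fin 3)) = a1 := by
    change f ⊔ ({1} : Finset (Fin 3)).sup ![b0, b1, b2] = a1
    simpa using hfb1
  have v2 : pm.val ({2} : Finset (Fin 3)) = c := by
    change f ⊔ ({2} : Finset (Fin 3)).sup ![b0, b1, b2] = c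
    simpa using hfb2
  have hins : ∀ (i : Fin 3) (B : Finset (Fin 3)), pm.val (insert i B) = pm.val B ⊔ pm.val {i} := by
    intro i B
    change f ⊔ (insert i B).sup _ = (f ⊔ B.sup _) ⊔ (f ⊔ ({i} : Finset (Fin 3)).sup _)
    rw [Finset.sup_insert, Finset.sup_singleton, sup_sup_sup_comm, sup_idem, sup_comm (B.sup _)]
  have v01 : pm.val ({0, 1} : Finset (Fin 3)) = a0 ⊔ a1 := by
    rw [hins, v0, v1, sup_comm]
  have v02 : pm.val ({0, 2} : Finset (Fin 3)) = a0 ⊔ c := by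
    rw [hins, v0, v2, sup_comm]
  have v12 : pm.val ({1, 2} : Finset (Fin 3)) = a1 ⊔ c := by
    rw [hins, v1, v2, sup_comm]
  have hrl : rk (a0 ⊔ a1) = rk f + 2 := rk_sup_pt ha0 ha1 ha01
  have htop : (a0 ⊔ a1) ⊔ c = ⊤ := by
    apply eq_of_le_of_rk le_top
    have h1 := covBy_sup_of_covBy (ha0.le.trans le_sup_left : f ≤ a0 ⊔ a1) hc hcl
    rw [rk_covBy h1, hrl, hr]
  have vall : pm.val (Finset.univ : Finset (Fin 3)) = ⊤ := by
    have h1 : (Finset.univ : Finset (Fin 3)) = insert 2 {0, 1} := by decide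
    rw [h1, hins, v01, v2, htop]
  have hgm : pm.Good := by
    apply good_of_rk
    · change ∀ j : Fin 3, IsAtom ((![b0, b1, b2] : Fin 3 → L) j)
      intro j
      fin_cases j
      · exact hb0
      · exact hb1
      · exact hb2
    · change rk (pm.val (Finset.univ : Finset (Fin 3))) = rk f + 3
      rw [vall, hr]
  -- values of the other pieces
  have w0 : ∀ y : Y, (py y).val (∅ : Finset (Fin 1)) = y.1 := fun y => Pc.val_empty (py y)
  have w1 : ∀ y : Y, (py y).val ({0} : Finset (Fin 1)) = F y := by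
    intro y
    change y.1 ⊔ ({0} : Finset (Fin 1)).sup ![d y] = F y
    simpa using hyd y
  have huniv1 : (Finset.univ : Finset (Fin 1)) = {0} := by decide
  have hgy : ∀ y : Y, (py y).Good := by
    intro y
    apply good_of_rk
    · change ∀ j : Fin 1, IsAtom ((![d y] : Fin 1 → L) j)
      intro j
      fin_cases j
      exact hd y
    · change rk ((py y).val (Finset.univ : Finset (Fin 1))) = rk y.1 + 1
      rw [huniv1, w1, (hF y).2, pt_rk y.2.1]
  have hmix : ∀ (B : Finset (Fin 3)) (y : Y) (B' : Finset (Fin 1)),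
      pm.val B ≠ (py y).val B' := by
    intro B y B' h
    have h1 : rk (pm.val B) = rk f + B.card := hgm.rk_val B
    rcases fin1_cases B' with rfl | rfl
    · rw [w0] at h
      have h2 : B.card = 1 := by
        have := pt_rk y.2.1
        rw [h] at h1
        omega
      rcases (fin3_cases B).1 h2 with rfl | rfl | rfl
      · exact y.2.2.1 (h.symm.trans v0)
      · exact y.2.2.2.1 (h.symm.trans v1)
      · exact y.2.2.2.2 (h.symm.trans v2)
    · rw [w1] at h
      have h2 : B.card = 2 := by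
        have := (hF y).2
        rw [h] at h1
        omega
      rcases (fin3_cases B).2 h2 with rfl | rfl | rfl
      · exact (hFne y).1 (h.symm.trans v01)
      · exact (hFne y).2.1 (h.symm.trans v02)
      · exact (hFne y).2.2 (h.symm.trans v12)
  have hyy : ∀ (y y' : Y) (B B' : Finset (Fin 1)), (py y).val B = (py y').val B' →
      y = y' ∧ B = B' := by
    intro y y' B B' h'
    have n1 : ∀ y y' : Y, y.1 ≠ F y' := by
      intro y y' h
      have := (hF y').2
      rw [← h, pt_rk y.2.1] at this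
      omega
    rcases fin1_cases B with rfl | rfl
    · rcases fin1_cases B' with rfl | rfl
      · rw [w0, w0] at h'
        exact ⟨Subtype.ext h', rfl⟩
      · rw [w0, w1] at h'
        exact absurd h' (n1 y y')
    · rcases fin1_cases B' with rfl | rfl
      · rw [w0, w1] at h'
        exact absurd h'.symm (n1 y' y)
      · rw [w1, w1] at h'
        exact ⟨hFinj h', rfl⟩
  let P : Option Y → Pc L := fun o => o.elim pm py
  refine HasPack.assemble (ι := Option Y) P ?_ ?_ ?_ ?_ ?_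
  · rintro (_ | y)
    · exact hgm
    · exact hgy y
  · rintro (_ | y)
    · exact le_refl f
    · exact y.2.1.le
  · rintro (_ | y)
    · change rk (⊤ : L) + rk f ≤ rk f + rk (pm.val (Finset.univ : Finset (Fin 3)))
      rw [vall]
      omega
    · change rk (⊤ : L) + rk f ≤ rk y.1 + rk ((py y).val (Finset.univ : Finset (Fin 1)))
      rw [huniv1, w1, (hF y).2, pt_rk y.2.1]
      omega
  · rintro (_ | y) B (_ | y') B' h
    · exact ⟨rfl, heq_of_eq (hgm.inj h)⟩
    · exact absurd h (hmix B y' B')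
    · exact absurd h.symm (hmix B' y B)
    · obtain ⟨rfl, h2⟩ := hyy y y' B B' h
      exact ⟨rfl, heq_of_eq h2⟩
  · intro z hz hrz
    have hrz' : rk z ≤ rk f + 1 := by omega
    by_cases hzf : z = f
    · exact ⟨none, ∅, by rw [Pc.val_empty, hzf]; rfl⟩
    · have h1 : f < z := lt_of_le_of_ne hz (fun h => hzf h.symm)
      have h2 := rk_lt h1
      have h3 : f ⋖ z := covBy_of_rk hz (by omega)
      by_cases h4 : z = a0
      · exact ⟨none, ({0} : Finset (Fin 3)), by rw [h4]; exact v0⟩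
      by_cases h5 : z = a1
      · exact ⟨none, ({1} : Finset (Fin 3)), by rw [h5]; exact v1⟩
      by_cases h6 : z = c
      · exact ⟨none, ({2} : Finset (Fin 3)), by rw [h6]; exact v2⟩
      exact ⟨some ⟨z, h3, h4, h5, h6⟩, ∅, Pc.val_empty _⟩

end Pool.Agent.Helper28.BPack
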