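import Pool.Agent.Helper28.BPack.Main

/-!
# A criterion in rank four
-/

set_option autoImplicit false
set_option linter.unusedSectionVars false

namespace Pool.Agent.Helper28.BPack

variable {L : Type} [Lattice L] [BoundedOrder L] [Finite L] [IsUpperModularLattice L]

theorem rk_atom {a : L} (ha : IsAtom a) : rk a = 1 := by
  rw [rk_covBy ha.bot_covBy, rk_bot]

theorem atom_of_rk {x : L} (h : rk x = 1) : IsAtom x :=
  bot_covBy_iff.mp (covBy_of_rk bot_le (by rw [rk_bot, h]))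

theorem eq_bot_of_rk {x : L} (h : rk x = 0) : x = ⊥ :=
  (eq_of_le_of_rk bot_le (by rw [rk_bot, h])).symm

/-- The pieces of dimension two. -/
abbrev pc2 (q c d : L) : Pc L := ⟨q, 2, ![c, d]⟩

theorem pc2_good {q c d : L} (hq : rk q = 1) (hc : IsAtom c) (hd : IsAtom d)
    (h : rk (q ⊔ c ⊔ d) = 3) : (pc2 q c d).Good := by
  apply good_of_rk
  · intro j
    match j with
    | 0 => exact hc
    | 1 => exact hd
  · change rk ((pc2 q c d).val (Finset.univ : Finset (Fin 2))) = rk q + 2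
    have h1 : (Finset.univ : Finset (Fin 2)) = insert 0 {1} := by decide
    have h2 : (pc2 q c d).val (Finset.univ : Finset (Fin 2)) = q ⊔ c ⊔ d := by
      change q ⊔ (Finset.univ : Finset (Fin 2)).sup ![c, d] = q ⊔ c ⊔ d
      rw [h1, Finset.sup_insert, Finset.sup_singleton, sup_assoc]; rfl
    rw [h2, h, hq]

theorem fin2_cases (B : Finset (Fin 2)) : B = ∅ ∨ B = {0} ∨ B = {1} ∨ B = Finset.univ := by
  revert B; decide

theorem pc2_val {q c d : L} : (pc2 q c d).val (∅ : Finset (Fin 2)) = q ∧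
    (pc2 q c d).val ({0} : Finset (Fin 2)) = q ⊔ c ∧
    (pc2 q c d).val ({1} : Finset (Fin 2)) = q ⊔ d ∧
    (pc2 q c d).val (Finset.univ : Finset (Fin 2)) = q ⊔ c ⊔ d := by
  refine ⟨Pc.val_empty _, ?_, ?_, ?_⟩
  · change q ⊔ ({0} : Finset (Fin 2)).sup ![c, d] = q ⊔ c
    rw [Finset.sup_singleton]; rfl
  · change q ⊔ ({1} : Finset (Fin 2)).sup ![c, d] = q ⊔ d
    rw [Finset.sup_singleton]; rfl
  · have h1 : (Finset.univ : Finset (Fin 2)) = insert 0 {1} := by decide
    change q ⊔ (Finset.univ : Finset (Fin 2)).sup ![c, d] = q ⊔ c ⊔ d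
    rw [h1, Finset.sup_insert, Finset.sup_singleton, sup_assoc]; rfl

/-- **Criterion.** In rank four it is enough to find a basis `b` and for each other point two lines
through it, spanning a plane, such that all these lines and planes are distinct and different from
those spanned by the basis. -/
theorem hasPack_of_crit (hr : rk (⊤ : L) = 4) (b : Fin 4 → L) (hb : ∀ i, IsAtom (b i))
    (hbt : (Finset.univ : Finset (Fin 4)).sup b = ⊤) (c d : L → L)
    (hc : ∀ q, IsAtom q → (∀ i, q ≠ b i) → IsAtom (c q) ∧ IsAtom (d q) ∧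
      rk (q ⊔ c q ⊔ d q) = 3)
    (hcc : ∀ q q', IsAtom q → (∀ i, q ≠ b i) → IsAtom q' → (∀ i, q' ≠ b i) →
      q ⊔ c q = q' ⊔ c q' → q = q')
    (hdd : ∀ q q', IsAtom q → (∀ i, q ≠ b i) → IsAtom q' → (∀ i, q' ≠ b i) →
      q ⊔ d q = q' ⊔ d q' → q = q')
    (hcd : ∀ q q', IsAtom q → (∀ i, q ≠ b i) → IsAtom q' → (∀ i, q' ≠ b i) →
      q ⊔ c q ≠ q' ⊔ d q')
    (hcb : ∀ q i j, IsAtom q → (∀ i, q ≠ b i) → i ≠ j → q ⊔ c q ≠ b i ⊔ b j)
    (hdb : ∀ q i j, IsAtom q → (∀ i, q ≠ b i) → i ≠ j → q ⊔ d q ≠ b i ⊔ b j)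
    (hp : ∀ q q', IsAtom q → (∀ i, q ≠ b i) → IsAtom q' → (∀ i, q' ≠ b i) →
      q ⊔ c q ⊔ d q = q' ⊔ c q' ⊔ d q' → q = q')
    (hpb : ∀ q i j k, IsAtom q → (∀ i, q ≠ b i) → i ≠ j → i ≠ k → j ≠ k →
      q ⊔ c q ⊔ d q ≠ b i ⊔ b j ⊔ b k) :
    HasPack (⊥ : L) := by
  classical
  let κ := {q : L // IsAtom q ∧ ∀ i, q ≠ b i}
  let pB : Pc L := ⟨⊥, 4, b⟩
  let P : Option κ → Pc L := fun o => match o with
    | none => pB
    | some q => pc2 q.1 (c q.1) (d q.1)
  have hBval : ∀ C : Finset (Fin 4), pB.val C = C.sup b := fun C => by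
    change ⊥ ⊔ C.sup b = C.sup b
    rw [bot_sup_eq]
  have hgB : pB.Good := by
    apply good_of_rk hb
    change rk (pB.val (Finset.univ : Finset (Fin 4))) = rk (⊥ : L) + 4
    rw [hBval, hbt, hr, rk_bot]
  have hgq : ∀ q : κ, (pc2 q.1 (c q.1) (d q.1)).Good := fun q =>
    pc2_good (rk_atom q.2.1) (hc q.1 q.2.1 q.2.2).1 (hc q.1 q.2.1 q.2.2).2.1
      (hc q.1 q.2.1 q.2.2).2.2
  -- values of the pieces of dimension two have ranks one, two, two, three
  have hmix : ∀ (C : Finset (Fin 4)) (q : κ) (D : Finset (Fin 2)),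
      pB.val C ≠ (pc2 q.1 (c q.1) (d q.1)).val D := by
    intro C q D h
    have h1 := congrArg rk h
    rw [hgB.rk_val, (hgq q).rk_val] at h1
    have h2 : C.card = 1 + D.card := by
      have e1 : rk pB.x = 0 := rk_bot
      have e2 : rk (pc2 q.1 (c q.1) (d q.1)).x = 1 := rk_atom q.2.1
      rw [e1, e2] at h1
      omega
    rw [hBval] at h
    obtain ⟨v0, v1, v2, v3⟩ := pc2_val (q := q.1) (c := c q.1) (d := d q.1)
    rcases fin2_cases D with rfl | rfl | rfl | rfl
    · rw [v0] at h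
      rw [Finset.card_empty] at h2
      obtain ⟨i, rfl⟩ := Finset.card_eq_one.mp h2
      rw [Finset.sup_singleton] at h
      exact q.2.2 i h.symm
    · rw [v1] at h
      rw [Finset.card_singleton] at h2
      obtain ⟨i, j, hij, rfl⟩ := Finset.card_eq_two.mp h2
      rw [Finset.sup_insert, Finset.sup_singleton] at h
      exact hcb q.1 i j q.2.1 q.2.2 hij h.symm
    · rw [v2] at h
      rw [Finset.card_singleton] at h2
      obtain ⟨i, j, hij, rfl⟩ := Finset.card_eq_two.mp h2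
      rw [Finset.sup_insert, Finset.sup_singleton] at h
      exact hdb q.1 i j q.2.1 q.2.2 hij h.symm
    · rw [v3] at h
      rw [Finset.card_univ, Fintype.card_fin] at h2
      obtain ⟨i, j, k, hij, hik, hjk, rfl⟩ := Finset.card_eq_three.mp h2
      rw [Finset.sup_insert, Finset.sup_insert, Finset.sup_singleton, ← sup_assoc] at h
      exact hpb q.1 i j k q.2.1 q.2.2 hij hik hjk h.symm
  have hqq : ∀ (q q' : κ) (D D' : Finset (Fin 2)),
      (pc2 q.1 (c q.1) (d q.1)).val D = (pc2 q'.1 (c q'.1) (d q'.1)).val D' → q = q' := by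
    intro q q' D D' h
    apply Subtype.ext
    have h1 := congrArg rk h
    rw [(hgq q).rk_val, (hgq q').rk_val] at h1
    have h2 : D.card = D'.card := by
      have e1 : rk (pc2 q.1 (c q.1) (d q.1)).x = 1 := rk_atom q.2.1
      have e2 : rk (pc2 q'.1 (c q'.1) (d q'.1)).x = 1 := rk_atom q'.2.1
      rw [e1, e2] at h1
      omega
    obtain ⟨v0, v1, v2, v3⟩ := pc2_val (q := q.1) (c := c q.1) (d := d q.1)
    obtain ⟨w0, w1, w2, w3⟩ := pc2_val (q := q'.1) (c := c q'.1) (d := d q'.1)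
    rcases fin2_cases D with rfl | rfl | rfl | rfl <;>
      rcases fin2_cases D' with rfl | rfl | rfl | rfl
    · rwa [v0, w0] at h
    · simp at h2
    · simp at h2
    · simp at h2
    · simp at h2
    · rw [v1, w1] at h
      exact hcc _ _ q.2.1 q.2.2 q'.2.1 q'.2.2 h
    · rw [v1, w2] at h
      exact absurd h (hcd _ _ q.2.1 q.2.2 q'.2.1 q'.2.2)
    · simp at h2
    · simp at h2
    · rw [v2, w1] at h
      exact absurd h.symm (hcd _ _ q'.2.1 q'.2.2 q.2.1 q.2.2)
    · rw [v2, w2] at h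
      exact hdd _ _ q.2.1 q.2.2 q'.2.1 q'.2.2 h
    · simp at h2
    · simp at h2
    · simp at h2
    · simp at h2
    · rw [v3, w3] at h
      exact hp _ _ q.2.1 q.2.2 q'.2.1 q'.2.2 h
  refine HasPack.assemble P ?_ ?_ ?_ ?_ ?_
  · rintro (_ | q)
    · exact hgB
    · exact hgq q
  · intro i; exact bot_le
  · rintro (_ | q)
    · change rk (⊤ : L) + rk (⊥ : L) ≤ rk (⊥ : L) + rk (pB.val (Finset.univ : Finset (Fin 4)))
      rw [hBval, hbt]
      omega
    · change rk (⊤ : L) + rk (⊥ : L) ≤ rk q.1 +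
        rk ((pc2 q.1 (c q.1) (d q.1)).val (Finset.univ : Finset (Fin 2)))
      rw [(pc2_val (q := q.1) (c := c q.1) (d := d q.1)).2.2.2, (hc q.1 q.2.1 q.2.2).2.2, hr,
        rk_bot, rk_atom q.2.1]
  · rintro (_ | q) C (_ | q') C' h
    · exact ⟨rfl, heq_of_eq (hgB.inj h)⟩
    · exact absurd h (hmix C q' C')
    · exact absurd h.symm (hmix C' q C)
    · have := hqq q q' C C' h
      subst this
      exact ⟨rfl, heq_of_eq ((hgq q).inj h)⟩
  · intro z _ hz
    rw [hr, rk_bot] at hz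
    by_cases h0 : rk z = 0
    · refine ⟨none, ∅, ?_⟩
      change pB.val ∅ = z
      rw [hBval, Finset.sup_empty, eq_bot_of_rk h0]
    · have h1 : IsAtom z := atom_of_rk (by omega)
      by_cases h2 : ∀ i, z ≠ b i
      · exact ⟨some ⟨z, h1, h2⟩, ∅, Pc.val_empty _⟩
      · push Not at h2
        obtain ⟨i, hi⟩ := h2
        refine ⟨none, ({i} : Finset (Fin 4)), ?_⟩
        change pB.val {i} = z
        rw [hBval, Finset.sup_singleton, hi]

end Pool.Agent.Helper28.BPack
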