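import Pool.Agent.Helper28.BPack.ModLine

/-!
# Rank four: the cone construction
-/

set_option autoImplicit false
set_option linter.unusedSectionVars false

namespace Pool.Agent.Helper28.BPack

variable {L : Type} [Lattice L] [BoundedOrder L] [Finite L] [IsUpperModularLattice L]

namespace Skew

variable {u v : L}

theorem not_le_line (h : Skew u v) {q t : L} (hq : IsAtom q) (hqu : ¬ q ≤ u) (ht : IsAtom t) :
    ¬ u ≤ q ⊔ t := by
  intro h1
  have h2 : rk (q ⊔ t) ≤ 2 := by
    have := rk_sup_atom_le (x := q) ht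
    rw [rk_atom hq] at this
    exact this
  have h3 : u = q ⊔ t := eq_of_le_of_rk h1 (by rw [h.hu]; exact h2)
  exact hqu (le_sup_left.trans h3.symm.le)

/-- The lines `q ⊔ e` with `e ≤ u`. -/
theorem inf_u (h : Skew u v) {q e : L} (hq : IsAtom q) (hqu : ¬ q ≤ u) (he : IsAtom e)
    (heu : e ≤ u) : (q ⊔ e) ⊓ u = e :=
  inf_atom he le_sup_right heu h.hu (h.not_le_line hq hqu he)

/-- The planes `q ⊔ v` with `q ≤ u`. -/
theorem plane_inf (h : Skew u v) (hat : ∀ x : L, ∃ s : Finset L, (∀ a ∈ s, IsAtom a) ∧ s.sup id = x)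
    {q : L} (hq : IsAtom q) (hqu : q ≤ u) : (q ⊔ v) ⊓ u = q := by
  apply inf_atom hq le_sup_left hqu h.hu
  intro h1
  have h2 : rk (q ⊔ v) = 3 := by
    rw [sup_comm]
    exact h.symm.rk3 hq (h.inf_bot hat hq hqu)
  exact h.symm.not_le_of_rk h2 le_sup_right h1

theorem transversal (h : Skew u v)
    (hat : ∀ x : L, ∃ s : Finset L, (∀ a ∈ s, IsAtom a) ∧ s.sup id = x) {e z : L}
    (he : IsAtom e) (heu : e ≤ u) (hz : IsAtom z) (hzv : z ≤ v) :
    (e ⊔ z) ⊓ u = e ∧ (e ⊔ z) ⊓ v = z := by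
  constructor
  · rw [sup_comm e z]
    exact h.inf_u hz (h.symm.inf_bot hat hz hzv) he heu
  · exact h.symm.inf_u he (h.inf_bot hat he heu) hz hzv

/-- The second lines in the cone construction. -/
theorem inf_skew (h : Skew u v) {q s : L} (hq : IsAtom q) (hqu : ¬ q ≤ u) (hqv : ¬ q ≤ v) (hs : IsAtom s) (hsv : s ≤ v)
    (hsP : ¬ s ≤ u ⊔ q) : (q ⊔ s) ⊓ u = ⊥ ∧ (q ⊔ s) ⊓ v = s := by
  constructor
  · by_contra hne
    have h1 : (q ⊔ s) ⊓ u < u := lt_of_le_of_ne inf_le_right
      (fun h1 => h.not_le_line hq hqu hs (h1 ▸ inf_le_left))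
    have h2 := rk_lt h1
    rw [h.hu] at h2
    have h3 : IsAtom ((q ⊔ s) ⊓ u) := atom_of_rk (by
      have : rk ((q ⊔ s) ⊓ u) ≠ 0 := fun h3 => hne (eq_bot_of_rk h3)
      omega)
    have hqs : q ≠ s := fun h4 => hqv (h4 ▸ hsv)
    have h4 : q ≠ (q ⊔ s) ⊓ u := fun h4 => hqu (by rw [h4]; exact inf_le_right)
    have h5 := line_eq hq h3 h4 le_sup_left inf_le_left (rk_line hq hs hqs)
    apply hsP
    have h6 : s ≤ q ⊔ s := le_sup_right
    rw [← h5] at h6
    exact h6.trans (sup_le le_sup_right (inf_le_right.trans le_sup_left))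
  · exact h.symm.inf_u hq hqv hs hsv

/-- The planes in the cone construction. -/
theorem cone_plane (h : Skew u v)
    {q s x : L} (hq : IsAtom q) (hqu : ¬ q ≤ u) (hx : IsAtom x) (hxu : x ≤ u)
    (hs : IsAtom s) (hsv : s ≤ v) (hsP : ¬ s ≤ u ⊔ q)
    (hz : IsAtom ((u ⊔ q) ⊓ v)) (hzx : ¬ (u ⊔ q) ⊓ v ≤ q ⊔ x) :
    rk (q ⊔ x ⊔ s) = 3 ∧ (q ⊔ x ⊔ s) ⊓ (u ⊔ q) = q ⊔ x ∧ (q ⊔ x ⊔ s) ⊓ u = x ∧
      (q ⊔ x ⊔ s) ⊓ v = s := by
  have hqx : q ≠ x := fun h1 => hqu (h1 ▸ hxu)
  have hqxP : q ⊔ x ≤ u ⊔ q := sup_le le_sup_right (hxu.trans le_sup_left)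
  have h1 : rk (q ⊔ x ⊔ s) = 3 := by
    rw [rk_sup_atom hs (fun h1 => hsP (h1.trans hqxP)), rk_line hq hx hqx]
  have h2 : (q ⊔ x ⊔ s) ⊓ (u ⊔ q) = q ⊔ x := by
    have h3 : q ⊔ x ≤ (q ⊔ x ⊔ s) ⊓ (u ⊔ q) := le_inf le_sup_left hqxP
    have h4 : (q ⊔ x ⊔ s) ⊓ (u ⊔ q) < q ⊔ x ⊔ s := lt_of_le_of_ne inf_le_left
      (fun h4 => hsP (le_sup_right.trans (h4 ▸ inf_le_right)))
    have h5 := rk_lt h4
    exact (eq_of_le_of_rk h3 (by rw [rk_line hq hx hqx]; omega)).symm
  have h3 : (q ⊔ x ⊔ s) ⊓ u = x := by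
    have h4 : (q ⊔ x ⊔ s) ⊓ u ≤ (q ⊔ x) ⊓ u := by
      have h5 : (q ⊔ x ⊔ s) ⊓ u ≤ (q ⊔ x ⊔ s) ⊓ (u ⊔ q) :=
        le_inf inf_le_left (inf_le_right.trans le_sup_left)
      rw [h2] at h5
      exact le_inf h5 inf_le_right
    rw [h.inf_u hq hqu hx hxu] at h4
    exact le_antisymm h4 (le_inf (le_sup_right.trans le_sup_left) hxu)
  refine ⟨h1, h2, h3, ?_⟩
  apply inf_atom hs le_sup_right hsv h.hv
  intro h4
  apply hzx
  rw [← h2]
  exact le_inf (inf_le_right.trans h4) inf_le_left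

theorem ne_of_rk {a b : L} {m n : ℕ} (ha : rk a = m) (hb : rk b = n) (h : m ≠ n) : a ≠ b :=
  fun h1 => h (by rw [← ha, ← hb, h1])

/-- **The cone construction.** -/
theorem hasPack [Fintype L] (h : Skew u v)
    (hat : ∀ x : L, ∃ s : Finset L, (∀ a ∈ s, IsAtom a) ∧ s.sup id = x)
    (hP : ∀ P, u ≤ P → rk P = 3 → P ⊓ v = ⊥ → ∀ q q', IsAtom q → IsAtom q' → q ≤ P → q' ≤ P →
      ¬ q ≤ u → ¬ q' ≤ u → q = q')
    (hlen : ∀ w, rk w = 2 → w ⊓ u ≠ ⊥ → w ⊓ v = ⊥ → (At w).card ≤ (At u).card) :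
    HasPack (⊥ : L) := by
  classical
  obtain ⟨e1, e2, he1, he2, he12, he1u, he2u⟩ := exists_two_atoms hat h.hu
  obtain ⟨z1, z2, hz1, hz2, hz12, hz1v, hz2v⟩ := exists_two_atoms hat h.hv
  obtain ⟨x, hx, hxinj⟩ := h.primary hat hlen
  obtain ⟨σ, hσ, hσinj⟩ := h.exists_derangement hat
  have hu12 : e1 ⊔ e2 = u := line_eq he1 he2 he12 he1u he2u h.hu
  have hv12 : z1 ⊔ z2 = v := line_eq hz1 hz2 hz12 hz1v hz2v h.hv
  -- the basis
  let b : Fin 4 → L := ![e1, e2, z1, z2]
  have hEZ : ∀ i, (IsAtom (b i) ∧ (b i = e1 ∨ b i = e2)) ∨ (IsAtom (b i) ∧ (b i = z1 ∨ b i = z2)) := by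
    intro i
    match i with
    | 0 => exact Or.inl ⟨he1, Or.inl rfl⟩
    | 1 => exact Or.inl ⟨he2, Or.inr rfl⟩
    | 2 => exact Or.inr ⟨hz1, Or.inl rfl⟩
    | 3 => exact Or.inr ⟨hz2, Or.inr rfl⟩
  have hEu : ∀ t, (t = e1 ∨ t = e2) → IsAtom t ∧ t ≤ u := by
    rintro t (rfl | rfl)
    · exact ⟨he1, he1u⟩
    · exact ⟨he2, he2u⟩
  have hZv : ∀ t, (t = z1 ∨ t = z2) → IsAtom t ∧ t ≤ v := by
    rintro t (rfl | rfl)
    · exact ⟨hz1, hz1v⟩
    · exact ⟨hz2, hz2v⟩
  have hez : ∀ s t, IsAtom s → s ≤ u → t ≤ v → s ≠ t := fun s t hs hsu htv h1 =>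
    h.inf_bot hat hs hsu (h1 ▸ htv)
  have hbinj : ∀ i j, i ≠ j → b i ≠ b j := by
    intro i j hij
    have e13 := hez e1 z1 he1 he1u hz1v
    have e14 := hez e1 z2 he1 he1u hz2v
    have e23 := hez e2 z1 he2 he2u hz1v
    have e24 := hez e2 z2 he2 he2u hz2v
    match i, j with
    | 0, 0 => exact absurd rfl hij
    | 0, 1 => exact he12
    | 0, 2 => exact e13
    | 0, 3 => exact e14
    | 1, 0 => exact he12.symm
    | 1, 1 => exact absurd rfl hij
    | 1, 2 => exact e23
    | 1, 3 => exact e24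
    | 2, 0 => exact e13.symm
    | 2, 1 => exact e23.symm
    | 2, 2 => exact absurd rfl hij
    | 2, 3 => exact hz12
    | 3, 0 => exact e14.symm
    | 3, 1 => exact e24.symm
    | 3, 2 => exact hz12.symm
    | 3, 3 => exact absurd rfl hij
  have hbt : (Finset.univ : Finset (Fin 4)).sup b = ⊤ := by
    apply top_unique
    rw [← h.huv, ← hu12, ← hv12]
    refine sup_le (sup_le ?_ ?_) (sup_le ?_ ?_)
    · exact Finset.le_sup (f := b) (Finset.mem_univ 0)
    · exact Finset.le_sup (f := b) (Finset.mem_univ 1)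
    · exact Finset.le_sup (f := b) (Finset.mem_univ 2)
    · exact Finset.le_sup (f := b) (Finset.mem_univ 3)
  have hbe1 : b 0 = e1 := rfl
  have hbe2 : b 1 = e2 := rfl
  have hbz1 : b 2 = z1 := rfl
  have hbz2 : b 3 = z2 := rfl
  have hEline : ∀ s t, (s = e1 ∨ s = e2) → (t = e1 ∨ t = e2) → s ≠ t → s ⊔ t = u :=
    fun s t hs ht hst => line_eq (hEu s hs).1 (hEu t ht).1 hst (hEu s hs).2 (hEu t ht).2 h.hu
  have hZline : ∀ s t, (s = z1 ∨ s = z2) → (t = z1 ∨ t = z2) → s ≠ t → s ⊔ t = v :=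
    fun s t hs ht hst => line_eq (hZv s hs).1 (hZv t ht).1 hst (hZv s hs).2 (hZv t ht).2 h.hv
  have hb2 : ∀ i j, i ≠ j → b i ⊔ b j = u ∨ b i ⊔ b j = v ∨
      ∃ e z, (e = e1 ∨ e = e2) ∧ (z = z1 ∨ z = z2) ∧ b i ⊔ b j = e ⊔ z := by
    intro i j hij
    have hne := hbinj i j hij
    rcases hEZ i with hi | hi <;> rcases hEZ j with hj | hj
    · exact Or.inl (hEline _ _ hi.2 hj.2 hne)
    · exact Or.inr (Or.inr ⟨_, _, hi.2, hj.2, rfl⟩)
    · exact Or.inr (Or.inr ⟨_, _, hj.2, hi.2, sup_comm _ _⟩)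
    · exact Or.inr (Or.inl (hZline _ _ hi.2 hj.2 hne))
  have hthreeE : ∀ r s t : L, (r = e1 ∨ r = e2) → (s = e1 ∨ s = e2) → (t = e1 ∨ t = e2) →
      r ≠ s → r ≠ t → s ≠ t → False := by
    rintro r s t (rfl | rfl) (rfl | rfl) (rfl | rfl) h1 h2 h3 <;>
      first | exact h1 rfl | exact h2 rfl | exact h3 rfl
  have hthreeZ : ∀ r s t : L, (r = z1 ∨ r = z2) → (s = z1 ∨ s = z2) → (t = z1 ∨ t = z2) →
      r ≠ s → r ≠ t → s ≠ t → False := by
    rintro r s t (rfl | rfl) (rfl | rfl) (rfl | rfl) h1 h2 h3 <;>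
      first | exact h1 rfl | exact h2 rfl | exact h3 rfl
  have hb3 : ∀ i j k, i ≠ j → i ≠ k → j ≠ k →
      (∃ z, (z = z1 ∨ z = z2) ∧ b i ⊔ b j ⊔ b k = u ⊔ z) ∨
      (∃ e, (e = e1 ∨ e = e2) ∧ b i ⊔ b j ⊔ b k = e ⊔ v) := by
    intro i j k hij hik hjk
    have n1 := hbinj i j hij
    have n2 := hbinj i k hik
    have n3 := hbinj j k hjk
    rcases hEZ i with hi | hi <;> rcases hEZ j with hj | hj <;> rcases hEZ k with hk | hk
    · exact (hthreeE _ _ _ hi.2 hj.2 hk.2 n1 n2 n3).elim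
    · exact Or.inl ⟨_, hk.2, by rw [hEline _ _ hi.2 hj.2 n1]⟩
    · exact Or.inl ⟨_, hj.2, by rw [sup_right_comm, hEline _ _ hi.2 hk.2 n2]⟩
    · exact Or.inr ⟨_, hi.2, by rw [sup_assoc, hZline _ _ hj.2 hk.2 n3]⟩
    · exact Or.inl ⟨_, hi.2, by rw [sup_assoc, hEline _ _ hj.2 hk.2 n3, sup_comm]⟩
    · exact Or.inr ⟨_, hj.2, by rw [sup_right_comm, hZline _ _ hi.2 hk.2 n2, sup_comm]⟩
    · exact Or.inr ⟨_, hk.2, by rw [hZline _ _ hi.2 hj.2 n1, sup_comm]⟩
    · exact (hthreeZ _ _ _ hi.2 hj.2 hk.2 n1 n2 n3).elim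
  -- the two further points
  let c : L → L := fun q => if q ≤ u then z1 else if CT u v q then x q else e1
  let d : L → L := fun q => if q ≤ u then z2 else if CT u v q then σ ((u ⊔ q) ⊓ v) else e2
  have cA : ∀ q, q ≤ u → c q = z1 := fun q h1 => if_pos h1
  have dA : ∀ q, q ≤ u → d q = z2 := fun q h1 => if_pos h1
  have cC : ∀ q, CT u v q → c q = x q := fun q h1 => by
    simp only [c]; rw [if_neg h1.2.1, if_pos h1]
  have dC : ∀ q, CT u v q → d q = σ ((u ⊔ q) ⊓ v) := fun q h1 => by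
    simp only [d]; rw [if_neg h1.2.1, if_pos h1]
  have cB : ∀ q, ¬ q ≤ u → ¬ CT u v q → c q = e1 := fun q h1 h2 => by
    simp only [c]; rw [if_neg h1, if_neg h2]
  have dB : ∀ q, ¬ q ≤ u → ¬ CT u v q → d q = e2 := fun q h1 h2 => by
    simp only [d]; rw [if_neg h1, if_neg h2]
  -- facts on points of the third kind
  have hσz : ∀ q, CT u v q → IsAtom (σ ((u ⊔ q) ⊓ v)) ∧ σ ((u ⊔ q) ⊓ v) ≤ v ∧
      ¬ σ ((u ⊔ q) ⊓ v) ≤ u ⊔ q := by
    intro q hq
    have hz := CT.z h hq
    obtain ⟨s1, s2, s3⟩ := hσ _ hz inf_le_right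
    exact ⟨s1, s2, fun h1 => s3 (atom_eq s1 hz (le_inf h1 s2))⟩
  have hCline : ∀ q, CT u v q → (q ⊔ x q) ⊓ u = x q ∧ (q ⊔ x q) ⊓ v = ⊥ := by
    intro q hq
    obtain ⟨x1, x2, x3⟩ := hx q hq
    refine ⟨h.inf_u hq.1 hq.2.1 x1 x2, ?_⟩
    by_contra hne
    have h5 : (q ⊔ x q) ⊓ v ≤ (u ⊔ q) ⊓ v :=
      inf_le_inf_right v (sup_le le_sup_right (x2.trans le_sup_left))
    rcases (CT.z h hq).le_iff.mp h5 with h6 | h6
    · exact hne h6
    · exact x3 (h6 ▸ inf_le_left)
  have hCskew : ∀ q, CT u v q → (q ⊔ σ ((u ⊔ q) ⊓ v)) ⊓ u = ⊥ ∧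
      (q ⊔ σ ((u ⊔ q) ⊓ v)) ⊓ v = σ ((u ⊔ q) ⊓ v) := by
    intro q hq
    obtain ⟨s1, s2, s3⟩ := hσz q hq
    exact h.inf_skew hq.1 hq.2.1 hq.2.2.1 s1 s2 s3
  have hCplane : ∀ q, CT u v q → rk (q ⊔ x q ⊔ σ ((u ⊔ q) ⊓ v)) = 3 ∧
      (q ⊔ x q ⊔ σ ((u ⊔ q) ⊓ v)) ⊓ (u ⊔ q) = q ⊔ x q ∧
      (q ⊔ x q ⊔ σ ((u ⊔ q) ⊓ v)) ⊓ u = x q ∧
      (q ⊔ x q ⊔ σ ((u ⊔ q) ⊓ v)) ⊓ v = σ ((u ⊔ q) ⊓ v) := by
    intro q hq
    obtain ⟨s1, s2, s3⟩ := hσz q hq
    obtain ⟨x1, x2, x3⟩ := hx q hq
    exact h.cone_plane hq.1 hq.2.1 x1 x2 s1 s2 s3 (CT.z h hq) x3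
  -- facts on points of the second kind
  have hBv : ∀ q, IsAtom q → ¬ q ≤ u → ¬ CT u v q → (u ⊔ q) ⊓ v ≠ ⊥ → q = (u ⊔ q) ⊓ v := by
    intro q hq hqu hnC hne
    have hqv : q ≤ v := by
      by_contra hqv
      exact hnC ⟨hq, hqu, hqv, hne⟩
    have hz := (h.inf_cases (h.rk3 hq hqu) le_sup_left).resolve_left hne
    exact atom_eq hq hz (le_inf le_sup_right hqv)
  have hBB : ∀ q q', IsAtom q → ¬ q ≤ u → ¬ CT u v q → IsAtom q' → ¬ q' ≤ u → ¬ CT u v q' →
      u ⊔ q = u ⊔ q' → q = q' := by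
    intro q q' hq hqu hnC hq' hqu' hnC' h1
    by_cases h0 : (u ⊔ q) ⊓ v = ⊥
    · exact hP _ le_sup_left (h.rk3 hq hqu) h0 q q' hq hq' le_sup_right
        (h1 ▸ le_sup_right) hqu hqu'
    · rw [hBv q hq hqu hnC h0, hBv q' hq' hqu' hnC' (h1 ▸ h0), h1]
  have hsupu : ∀ q e, IsAtom q → IsAtom e → e ≤ u → u ⊔ (q ⊔ e) = u ⊔ q := by
    intro q e _ _ heu
    rw [sup_comm q e, ← sup_assoc, sup_eq_left.mpr heu]
  have hBC : ∀ q q' e, IsAtom q → ¬ q ≤ u → ¬ CT u v q → CT u v q' → IsAtom e → e ≤ u →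
      q ⊔ e ≠ q' ⊔ x q' := by
    intro q q' e hq hqu hnC hC' he heu h1
    obtain ⟨x1, x2, x3⟩ := hx q' hC'
    have h2 : u ⊔ q = u ⊔ q' := by
      rw [← hsupu q e hq he heu, h1, hsupu q' (x q') hC'.1 x1 x2]
    have h3 : q = (u ⊔ q') ⊓ v := by
      rw [← h2]
      exact hBv q hq hqu hnC (by rw [h2]; exact hC'.2.2.2)
    apply x3
    rw [← h3, ← h1]
    exact le_sup_left
  have hBZ : ∀ q z, IsAtom q → (∀ i, q ≠ b i) → ¬ q ≤ u → ¬ CT u v q → (z = z1 ∨ z = z2) →
      u ⊔ q ≠ u ⊔ z := by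
    intro q z hq hqb hqu hnC hz h1
    have hz' := hZv z hz
    have h2 : z ≤ (u ⊔ q) ⊓ v := le_inf (h1 ▸ le_sup_right) hz'.2
    have h3 : (u ⊔ q) ⊓ v ≠ ⊥ := fun h3 => hz'.1.1 (le_bot_iff.mp (h3 ▸ h2))
    have h4 := hBv q hq hqu hnC h3
    have h5 : z = q := atom_eq hz'.1 hq (by rw [h4]; exact h2)
    rcases hz with rfl | rfl
    · exact hqb 2 h5.symm
    · exact hqb 3 h5.symm
  -- further facts
  have hAplane : ∀ q, q ⊔ z1 ⊔ z2 = q ⊔ v := fun q => by rw [sup_assoc, hv12]
  have hBplane : ∀ q, q ⊔ e1 ⊔ e2 = u ⊔ q := fun q => by rw [sup_assoc, hu12, sup_comm]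
  have hru : ∀ t, IsAtom t → t ≠ u := fun t ht => ne_of_rk (rk_atom ht) h.hu (by norm_num)
  have hrv : ∀ t, IsAtom t → t ≠ v := fun t ht => ne_of_rk (rk_atom ht) h.hv (by norm_num)
  have hE1 : ∀ q e, (∀ i, q ≠ b i) → (e = e1 ∨ e = e2) → q ≠ e := by
    rintro q e hq (rfl | rfl)
    · exact hq 0
    · exact hq 1
  have hZ1 : ∀ q z, (∀ i, q ≠ b i) → (z = z1 ∨ z = z2) → q ≠ z := by
    rintro q e hq (rfl | rfl)
    · exact hq 2
    · exact hq 3
  have hvinfu : v ⊓ u = ⊥ := by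
    by_contra hne
    obtain ⟨t, ht, htl, -⟩ := exists_atom hat (x := ⊥) (y := v ⊓ u)
      (fun h1 => hne (le_bot_iff.mp h1))
    exact h.inf_bot hat ht (htl.trans inf_le_right) (htl.trans inf_le_left)
  have huinfv : u ⊓ v = ⊥ := by rw [inf_comm, hvinfu]
  -- joins of the two kinds
  have hez2 : ∀ e z, (e = e1 ∨ e = e2) → (z = z1 ∨ z = z2) →
      (e ⊔ z) ⊓ u = e ∧ (e ⊔ z) ⊓ v = z := fun e z he hz =>
    h.transversal hat (hEu e he).1 (hEu e he).2 (hZv z hz).1 (hZv z hz).2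
  -- the intersections of all the lines and planes with `u` and `v`
  have hA1 : ∀ q z, IsAtom q → q ≤ u → (z = z1 ∨ z = z2) → (q ⊔ z) ⊓ u = q ∧ (q ⊔ z) ⊓ v = z :=
    fun q z hq hqu hz => h.transversal hat hq hqu (hZv z hz).1 (hZv z hz).2
  have hA2 : ∀ q, IsAtom q → q ≤ u → (q ⊔ v) ⊓ u = q := fun q hq hqu => h.plane_inf hat hq hqu
  have hB1 : ∀ q e, IsAtom q → ¬ q ≤ u → (e = e1 ∨ e = e2) → (q ⊔ e) ⊓ u = e :=
    fun q e hq hqu he => h.inf_u hq hqu (hEu e he).1 (hEu e he).2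
  have hPu : ∀ q, (u ⊔ q) ⊓ u = u := fun q => inf_eq_right.mpr le_sup_left
  have hvq : ∀ q, (q ⊔ v) ⊓ v = v := fun q => inf_eq_right.mpr le_sup_right
  apply hasPack_of_crit h.hr b (fun i => by rcases hEZ i with hi | hi <;> exact hi.1) hbt c d
  · -- the points and planes
    intro q hq hqb
    by_cases hqu : q ≤ u
    · rw [cA q hqu, dA q hqu, hAplane]
      refine ⟨hz1, hz2, ?_⟩
      rw [sup_comm]
      exact h.symm.rk3 hq (h.inf_bot hat hq hqu)
    · by_cases hC : CT u v q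
      · rw [cC q hC, dC q hC]
        exact ⟨(hx q hC).1, (hσz q hC).1, (hCplane q hC).1⟩
      · rw [cB q hqu hC, dB q hqu hC, hBplane]
        exact ⟨he1, he2, h.rk3 hq hqu⟩
  · -- first lines
    intro q q' hq hqb hq' hqb' heq
    by_cases hqu : q ≤ u
    · rw [cA q hqu] at heq
      have i1 := hA1 q z1 hq hqu (Or.inl rfl)
      by_cases hqu' : q' ≤ u
      · rw [cA q' hqu'] at heq
        have i2 := hA1 q' z1 hq' hqu' (Or.inl rfl)
        rw [← i1.1, ← i2.1, heq]
      · by_cases hC' : CT u v q'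
        · rw [cC q' hC'] at heq
          exfalso
          have i2 := (hCline q' hC').2
          rw [← heq, i1.2] at i2
          exact hz1.1 i2
        · rw [cB q' hqu' hC'] at heq
          exfalso
          have i2 := hB1 q' e1 hq' hqu' (Or.inl rfl)
          rw [← heq, i1.1] at i2
          exact hqb 0 i2
    · by_cases hC : CT u v q
      · rw [cC q hC] at heq
        by_cases hqu' : q' ≤ u
        · rw [cA q' hqu'] at heq
          exfalso
          have i1 := (hCline q hC).2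
          rw [heq, (hA1 q' z1 hq' hqu' (Or.inl rfl)).2] at i1
          exact hz1.1 i1
        · by_cases hC' : CT u v q'
          · rw [cC q' hC'] at heq
            exact hxinj q q' hC hC' heq
          · rw [cB q' hqu' hC'] at heq
            exact absurd heq.symm (hBC q' q e1 hq' hqu' hC' hC he1 he1u)
      · rw [cB q hqu hC] at heq
        have i1 := hB1 q e1 hq hqu (Or.inl rfl)
        by_cases hqu' : q' ≤ u
        · rw [cA q' hqu'] at heq
          exfalso
          rw [heq, (hA1 q' z1 hq' hqu' (Or.inl rfl)).1] at i1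
          exact hqb' 0 i1
        · by_cases hC' : CT u v q'
          · rw [cC q' hC'] at heq
            exact absurd heq (hBC q q' e1 hq hqu hC hC' he1 he1u)
          · rw [cB q' hqu' hC'] at heq
            apply hBB q q' hq hqu hC hq' hqu' hC'
            rw [← hsupu q e1 hq he1 he1u, heq, hsupu q' e1 hq' he1 he1u]
  · -- second lines
    intro q q' hq hqb hq' hqb' heq
    by_cases hqu : q ≤ u
    · rw [dA q hqu] at heq
      have i1 := hA1 q z2 hq hqu (Or.inr rfl)
      by_cases hqu' : q' ≤ u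
      · rw [dA q' hqu'] at heq
        have i2 := hA1 q' z2 hq' hqu' (Or.inr rfl)
        rw [← i1.1, ← i2.1, heq]
      · by_cases hC' : CT u v q'
        · rw [dC q' hC'] at heq
          exfalso
          have i2 := (hCskew q' hC').1
          rw [← heq, i1.1] at i2
          exact hq.1 i2
        · rw [dB q' hqu' hC'] at heq
          exfalso
          have i2 := hB1 q' e2 hq' hqu' (Or.inr rfl)
          rw [← heq, i1.1] at i2
          exact hqb 1 i2
    · by_cases hC : CT u v q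
      · rw [dC q hC] at heq
        have i1 := hCskew q hC
        by_cases hqu' : q' ≤ u
        · rw [dA q' hqu'] at heq
          exfalso
          have i2 := i1.1
          rw [heq, (hA1 q' z2 hq' hqu' (Or.inr rfl)).1] at i2
          exact hq'.1 i2
        · by_cases hC' : CT u v q'
          · rw [dC q' hC'] at heq
            have i2 := hCskew q' hC'
            have e3 : σ ((u ⊔ q) ⊓ v) = σ ((u ⊔ q') ⊓ v) := by rw [← i1.2, ← i2.2, heq]
            have e4 := hσinj _ _ (CT.z h hC) inf_le_right (CT.z h hC') inf_le_right e3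
            have e5 : u ⊔ q = u ⊔ q' := by
              have k1 : u ⊔ (u ⊔ q) ⊓ v = u ⊔ q := eq_of_le_of_rk (sup_le le_sup_left inf_le_left)
                (by rw [h.rk3 hq hqu, h.rk3 (CT.z h hC)
                      (fun k => h.symm.inf_bot hat (CT.z h hC) inf_le_right k)])
              have k2 : u ⊔ (u ⊔ q') ⊓ v = u ⊔ q' := eq_of_le_of_rk (sup_le le_sup_left inf_le_left)
                (by rw [h.rk3 hq' hqu', h.rk3 (CT.z h hC')
                      (fun k => h.symm.inf_bot hat (CT.z h hC') inf_le_right k)])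
              rw [← k1, e4, k2]
            by_contra hne
            have e6 : q ⊔ q' = q ⊔ σ ((u ⊔ q) ⊓ v) := line_eq hq hq' hne le_sup_left
              (heq ▸ le_sup_left) (rk_line hq (hσz q hC).1 (fun k => hC.2.2.1 (by
                rw [k]; exact (hσz q hC).2.1)))
            apply (hσz q hC).2.2
            have e7 : σ ((u ⊔ q) ⊓ v) ≤ q ⊔ σ ((u ⊔ q) ⊓ v) := le_sup_right
            rw [← e6] at e7
            exact e7.trans (sup_le le_sup_right (e5 ▸ le_sup_right))
          · rw [dB q' hqu' hC'] at heq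
            exfalso
            have i2 := i1.1
            rw [heq, hB1 q' e2 hq' hqu' (Or.inr rfl)] at i2
            exact he2.1 i2
      · rw [dB q hqu hC] at heq
        have i1 := hB1 q e2 hq hqu (Or.inr rfl)
        by_cases hqu' : q' ≤ u
        · rw [dA q' hqu'] at heq
          exfalso
          rw [heq, (hA1 q' z2 hq' hqu' (Or.inr rfl)).1] at i1
          exact hqb' 1 i1
        · by_cases hC' : CT u v q'
          · rw [dC q' hC'] at heq
            exfalso
            rw [heq, (hCskew q' hC').1] at i1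
            exact he2.1 i1.symm
          · rw [dB q' hqu' hC'] at heq
            apply hBB q q' hq hqu hC hq' hqu' hC'
            rw [← hsupu q e2 hq he2 he2u, heq, hsupu q' e2 hq' he2 he2u]
  · -- first and second lines
    intro q q' hq hqb hq' hqb' heq
    by_cases hqu : q ≤ u
    · rw [cA q hqu] at heq
      have i1 := hA1 q z1 hq hqu (Or.inl rfl)
      by_cases hqu' : q' ≤ u
      · rw [dA q' hqu'] at heq
        have i2 := (hA1 q' z2 hq' hqu' (Or.inr rfl)).2
        rw [← heq, i1.2] at i2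
        exact hz12 i2
      · by_cases hC' : CT u v q'
        · rw [dC q' hC'] at heq
          have i2 := (hCskew q' hC').1
          rw [← heq, i1.1] at i2
          exact hq.1 i2
        · rw [dB q' hqu' hC'] at heq
          have i2 := hB1 q' e2 hq' hqu' (Or.inr rfl)
          rw [← heq, i1.1] at i2
          exact hqb 1 i2
    · by_cases hC : CT u v q
      · rw [cC q hC] at heq
        have i1 := hCline q hC
        by_cases hqu' : q' ≤ u
        · rw [dA q' hqu'] at heq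
          have i2 := i1.2
          rw [heq, (hA1 q' z2 hq' hqu' (Or.inr rfl)).2] at i2
          exact hz2.1 i2
        · by_cases hC' : CT u v q'
          · rw [dC q' hC'] at heq
            have i2 := i1.1
            rw [heq, (hCskew q' hC').1] at i2
            exact (hx q hC).1.1 i2.symm
          · rw [dB q' hqu' hC'] at heq
            exact hBC q' q e2 hq' hqu' hC' hC he2 he2u heq.symm
      · rw [cB q hqu hC] at heq
        have i1 := hB1 q e1 hq hqu (Or.inl rfl)
        by_cases hqu' : q' ≤ u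
        · rw [dA q' hqu'] at heq
          rw [heq, (hA1 q' z2 hq' hqu' (Or.inr rfl)).1] at i1
          exact hqb' 0 i1
        · by_cases hC' : CT u v q'
          · rw [dC q' hC'] at heq
            rw [heq, (hCskew q' hC').1] at i1
            exact he1.1 i1.symm
          · rw [dB q' hqu' hC'] at heq
            rw [heq, hB1 q' e2 hq' hqu' (Or.inr rfl)] at i1
            exact he12 i1.symm
  · -- first lines and lines of the basis
    intro q i j hq hqb hij heq
    by_cases hqu : q ≤ u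
    · rw [cA q hqu] at heq
      have i1 := hA1 q z1 hq hqu (Or.inl rfl)
      rw [heq] at i1
      rcases hb2 i j hij with k | k | ⟨e, z, he, hz, k⟩
      · rw [k, inf_idem] at i1
        exact hru q hq i1.1.symm
      · rw [k, hvinfu] at i1
        exact hq.1 i1.1.symm
      · rw [k, (hez2 e z he hz).1] at i1
        exact hE1 q e hqb he i1.1.symm
    · by_cases hC : CT u v q
      · rw [cC q hC] at heq
        have i1 := hCline q hC
        rw [heq] at i1
        rcases hb2 i j hij with k | k | ⟨e, z, he, hz, k⟩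
        · rw [k, inf_idem] at i1
          exact hru _ (hx q hC).1 i1.1.symm
        · rw [k, hvinfu] at i1
          exact (hx q hC).1.1 i1.1.symm
        · rw [k, (hez2 e z he hz).2] at i1
          exact (hZv z hz).1.1 i1.2
      · rw [cB q hqu hC] at heq
        have i1 := hB1 q e1 hq hqu (Or.inl rfl)
        rcases hb2 i j hij with k | k | ⟨e, z, he, hz, k⟩
        · rw [heq, k, inf_idem] at i1
          exact hru _ he1 i1.symm
        · rw [heq, k, hvinfu] at i1
          exact he1.1 i1.symm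
        · apply hBZ q z hq hqb hqu hC hz
          rw [← hsupu q e1 hq he1 he1u, heq, k, sup_comm e z, hsupu z e (hZv z hz).1
            (hEu e he).1 (hEu e he).2]
  · -- second lines and lines of the basis
    intro q i j hq hqb hij heq
    by_cases hqu : q ≤ u
    · rw [dA q hqu] at heq
      have i1 := hA1 q z2 hq hqu (Or.inr rfl)
      rw [heq] at i1
      rcases hb2 i j hij with k | k | ⟨e, z, he, hz, k⟩
      · rw [k, inf_idem] at i1
        exact hru q hq i1.1.symm
      · rw [k, hvinfu] at i1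
        exact hq.1 i1.1.symm
      · rw [k, (hez2 e z he hz).1] at i1
        exact hE1 q e hqb he i1.1.symm
    · by_cases hC : CT u v q
      · rw [dC q hC] at heq
        have i1 := hCskew q hC
        rw [heq] at i1
        rcases hb2 i j hij with k | k | ⟨e, z, he, hz, k⟩
        · rw [k, inf_idem] at i1
          exact (ne_of_rk h.hu rk_bot (by norm_num)) i1.1
        · rw [k, inf_idem] at i1
          exact hrv _ (hσz q hC).1 i1.2.symm
        · rw [k, (hez2 e z he hz).1] at i1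
          exact (hEu e he).1.1 i1.1
      · rw [dB q hqu hC] at heq
        have i1 := hB1 q e2 hq hqu (Or.inr rfl)
        rcases hb2 i j hij with k | k | ⟨e, z, he, hz, k⟩
        · rw [heq, k, inf_idem] at i1
          exact hru _ he2 i1.symm
        · rw [heq, k, hvinfu] at i1
          exact he2.1 i1.symm
        · apply hBZ q z hq hqb hqu hC hz
          rw [← hsupu q e2 hq he2 he2u, heq, k, sup_comm e z, hsupu z e (hZv z hz).1
            (hEu e he).1 (hEu e he).2]
  · -- planes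
    intro q q' hq hqb hq' hqb' heq
    by_cases hqu : q ≤ u
    · rw [cA q hqu, dA q hqu, hAplane] at heq
      have i1 := hA2 q hq hqu
      by_cases hqu' : q' ≤ u
      · rw [cA q' hqu', dA q' hqu', hAplane] at heq
        rw [← i1, ← hA2 q' hq' hqu', heq]
      · by_cases hC' : CT u v q'
        · rw [cC q' hC', dC q' hC'] at heq
          exfalso
          have i2 := (hCplane q' hC').2.2.2
          rw [← heq, hvq] at i2
          exact hrv _ (hσz q' hC').1 i2.symm
        · rw [cB q' hqu' hC', dB q' hqu' hC', hBplane] at heq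
          exfalso
          rw [heq, hPu] at i1
          exact hru q hq i1.symm
    · by_cases hC : CT u v q
      · rw [cC q hC, dC q hC] at heq
        have i1 := hCplane q hC
        by_cases hqu' : q' ≤ u
        · rw [cA q' hqu', dA q' hqu', hAplane] at heq
          exfalso
          have i2 := i1.2.2.2
          rw [heq, hvq] at i2
          exact hrv _ (hσz q hC).1 i2.symm
        · by_cases hC' : CT u v q'
          · rw [cC q' hC', dC q' hC'] at heq
            have i2 := hCplane q' hC'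
            have e3 : σ ((u ⊔ q) ⊓ v) = σ ((u ⊔ q') ⊓ v) := by
              rw [← i1.2.2.2, ← i2.2.2.2, heq]
            have e4 := hσinj _ _ (CT.z h hC) inf_le_right (CT.z h hC') inf_le_right e3
            have e5 : u ⊔ q = u ⊔ q' := by
              have k1 : u ⊔ (u ⊔ q) ⊓ v = u ⊔ q := eq_of_le_of_rk (sup_le le_sup_left inf_le_left)
                (by rw [h.rk3 hq hqu, h.rk3 (CT.z h hC)
                      (fun k => h.symm.inf_bot hat (CT.z h hC) inf_le_right k)])
              have k2 : u ⊔ (u ⊔ q') ⊓ v = u ⊔ q' := eq_of_le_of_rk (sup_le le_sup_left inf_le_left)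
                (by rw [h.rk3 hq' hqu', h.rk3 (CT.z h hC')
                      (fun k => h.symm.inf_bot hat (CT.z h hC') inf_le_right k)])
              rw [← k1, e4, k2]
            apply hxinj q q' hC hC'
            rw [← i1.2.1, ← i2.2.1, heq, e5]
          · rw [cB q' hqu' hC', dB q' hqu' hC', hBplane] at heq
            exfalso
            have i2 := i1.2.2.1
            rw [heq, hPu] at i2
            exact hru _ (hx q hC).1 i2.symm
      · rw [cB q hqu hC, dB q hqu hC, hBplane] at heq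
        by_cases hqu' : q' ≤ u
        · rw [cA q' hqu', dA q' hqu', hAplane] at heq
          exfalso
          have i2 := hA2 q' hq' hqu'
          rw [← heq, hPu] at i2
          exact hru q' hq' i2.symm
        · by_cases hC' : CT u v q'
          · rw [cC q' hC', dC q' hC'] at heq
            exfalso
            have i2 := (hCplane q' hC').2.2.1
            rw [← heq, hPu] at i2
            exact hru _ (hx q' hC').1 i2.symm
          · rw [cB q' hqu' hC', dB q' hqu' hC', hBplane] at heq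
            exact hBB q q' hq hqu hC hq' hqu' hC' heq
  · -- planes and planes of the basis
    intro q i j k hq hqb hij hik hjk heq
    rcases hb3 i j k hij hik hjk with ⟨z, hz, w⟩ | ⟨e, he, w⟩
    · rw [w] at heq
      by_cases hqu : q ≤ u
      · rw [cA q hqu, dA q hqu, hAplane] at heq
        have i1 := hA2 q hq hqu
        rw [heq, hPu] at i1
        exact hru q hq i1.symm
      · by_cases hC : CT u v q
        · rw [cC q hC, dC q hC] at heq
          have i1 := (hCplane q hC).2.2.1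
          rw [heq, hPu] at i1
          exact hru _ (hx q hC).1 i1.symm
        · rw [cB q hqu hC, dB q hqu hC, hBplane] at heq
          exact hBZ q z hq hqb hqu hC hz heq
    · rw [w] at heq
      have i3 := hA2 e (hEu e he).1 (hEu e he).2
      by_cases hqu : q ≤ u
      · rw [cA q hqu, dA q hqu, hAplane] at heq
        have i1 := hA2 q hq hqu
        rw [heq, i3] at i1
        exact hE1 q e hqb he i1.symm
      · by_cases hC : CT u v q
        · rw [cC q hC, dC q hC] at heq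
          have i1 := (hCplane q hC).2.2.2
          rw [heq, hvq] at i1
          exact hrv _ (hσz q hC).1 i1.symm
        · rw [cB q hqu hC, dB q hqu hC, hBplane] at heq
          rw [← heq, hPu] at i3
          exact hru e (hEu e he).1 i3.symm

end Skew

end Pool.Agent.Helper28.BPack
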