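import Pool.Agent.Helper28.BPack.Rank

/-!
# Boolean packings of intervals, and the lifting lemma
-/

set_option autoImplicit false
set_option linter.unusedSectionVars false

namespace Pool.Agent.Helper28.BPack

/-- A candidate for a Boolean piece: a bottom element and a family of atoms. -/
structure Pc (L : Type) where
  /-- bottom element -/
  x : L
  /-- dimension -/
  n : ℕ
  /-- atoms -/
  a : Fin n → L

variable {L : Type} [Lattice L] [BoundedOrder L]

/-- The elements of the piece. -/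
def Pc.val (p : Pc L) (B : Finset (Fin p.n)) : L := p.x ⊔ B.sup p.a

/-- The family of atoms is independent over the bottom element. -/
def Pc.Good (p : Pc L) : Prop :=
  (∀ j, IsAtom (p.a j)) ∧ ∀ (B : Finset (Fin p.n)) (j : Fin p.n), j ∉ B → ¬ p.a j ≤ p.val B

theorem Pc.val_empty (p : Pc L) : p.val ∅ = p.x := by simp [Pc.val]

theorem Pc.val_insert (p : Pc L) (B : Finset (Fin p.n)) (j : Fin p.n) :
    p.val (insert j B) = p.val B ⊔ p.a j := by
  rw [Pc.val, Finset.sup_insert, Pc.val, sup_comm (p.a j), sup_assoc]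

theorem Pc.le_val (p : Pc L) (B : Finset (Fin p.n)) : p.x ≤ p.val B := le_sup_left

theorem Pc.val_mono (p : Pc L) {B C : Finset (Fin p.n)} (h : B ⊆ C) : p.val B ≤ p.val C :=
  sup_le_sup_left (Finset.sup_mono h) _

theorem Pc.a_le_val (p : Pc L) {B : Finset (Fin p.n)} {j : Fin p.n} (h : j ∈ B) :
    p.a j ≤ p.val B := (Finset.le_sup h).trans le_sup_right

theorem Pc.Good.inj {p : Pc L} (hp : p.Good) : Function.Injective p.val := by
  intro B C h
  ext j
  constructor
  · intro hj
    by_contra hc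
    exact hp.2 C j hc (h ▸ p.a_le_val hj)
  · intro hj
    by_contra hc
    exact hp.2 B j hc (h ▸ p.a_le_val hj)

variable [Finite L] [IsUpperModularLattice L]

theorem Pc.Good.rk_val {p : Pc L} (hp : p.Good) (B : Finset (Fin p.n)) :
    rk (p.val B) = rk p.x + B.card := by
  classical
  induction B using Finset.induction_on with
  | empty => rw [p.val_empty]; rfl
  | insert j B hj ih =>
    rw [Pc.val_insert, rk_sup_atom (hp.1 j) (hp.2 B j hj), ih, Finset.card_insert_of_notMem hj]
    ring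

theorem Pc.Good.covBy {p : Pc L} (hp : p.Good) {B : Finset (Fin p.n)} {j : Fin p.n}
    (hj : j ∉ B) : p.val B ⋖ p.val (insert j B) := by
  rw [Pc.val_insert]
  exact covBy_sup_atom (hp.1 j) (hp.2 B j hj)

/-- A Boolean packing of the interval from `f` to the top. -/
def HasPack (f : L) : Prop :=
  ∃ (ι : Type) (_ : Finite ι) (p : ι → Pc L), (∀ i, (p i).Good) ∧ (∀ i, f ≤ (p i).x) ∧
    (∀ i, rk (⊤ : L) + rk f ≤ rk (p i).x + rk ((p i).val Finset.univ)) ∧
    (∀ z, f ≤ z → ∃ i B, (p i).val B = z) ∧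
    (∀ i B i' B', (p i).val B = (p i').val B' → i = i' ∧ HEq B B')

/-- The trivial piece. -/
def single (z : L) : Pc L := ⟨z, 0, Fin.elim0⟩

theorem single_good (z : L) : (single z).Good := ⟨fun j => j.elim0, fun _ j => j.elim0⟩

theorem single_val (z : L) (B : Finset (Fin (single z).n)) : (single z).val B = z := by
  have : B = ∅ := by
    ext j; exact j.elim0
  rw [this, Pc.val_empty]; rfl

/-- Assembly: it is enough to pack the elements of small rank. -/
theorem HasPack.assemble {f : L} {ι : Type} [Finite ι] (p : ι → Pc L) (hg : ∀ i, (p i).Good)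
    (hf : ∀ i, f ≤ (p i).x)
    (hr : ∀ i, rk (⊤ : L) + rk f ≤ rk (p i).x + rk ((p i).val Finset.univ))
    (hinj : ∀ i B i' B', (p i).val B = (p i').val B' → i = i' ∧ HEq B B')
    (hcov : ∀ z, f ≤ z → 2 * rk z < rk (⊤ : L) + rk f → ∃ i B, (p i).val B = z) :
    HasPack f := by
  classical
  let κ := {z : L // f ≤ z ∧ ¬ ∃ i B, (p i).val B = z}
  let P : ι ⊕ κ → Pc L := Sum.elim p (fun z => single z.1)
  have hfin : Finite (ι ⊕ κ) := inferInstance
  refine ⟨ι ⊕ κ, hfin, P, ?_, ?_, ?_, ?_, ?_⟩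
  · rintro (i | z)
    · exact hg i
    · exact single_good z.1
  · rintro (i | z)
    · exact hf i
    · exact z.2.1
  · rintro (i | z)
    · exact hr i
    · have h1 : ¬ 2 * rk z.1 < rk (⊤ : L) + rk f := fun h => z.2.2 (hcov z.1 z.2.1 h)
      have h2 : rk (P (Sum.inr z)).x = rk z.1 := rfl
      have h3 : (P (Sum.inr z)).val Finset.univ = z.1 := single_val z.1 _
      rw [h2, h3]
      omega
  · intro z hz
    by_cases h : ∃ i B, (p i).val B = z
    · obtain ⟨i, B, hB⟩ := h
      exact ⟨Sum.inl i, B, hB⟩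
    · exact ⟨Sum.inr ⟨z, hz, h⟩, ∅, single_val z _⟩
  · rintro (i | z) B (i' | z') B' h
    · obtain ⟨rfl, h2⟩ := hinj i B i' B' h
      exact ⟨rfl, h2⟩
    · exfalso
      have h2 : (single z'.1).val B' = z'.1 := single_val z'.1 B'
      exact z'.2.2 ⟨i, B, h.trans h2⟩
    · exfalso
      have h2 : (single z.1).val B = z.1 := single_val z.1 B
      exact z.2.2 ⟨i', B', (h2.symm.trans h).symm⟩
    · have h2 : (single z.1).val B = z.1 := single_val z.1 B
      have h3 : (single z'.1).val B' = z'.1 := single_val z'.1 B'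
      have h4 : z.1 = z'.1 := h2.symm.trans (h.trans h3)
      have h5 : z = z' := Subtype.ext h4
      subst h5
      refine ⟨rfl, heq_of_eq ?_⟩
      ext j; exact j.elim0

/-- Relative complements of an atom. -/
theorem exists_lower (hat : ∀ x : L, ∃ s : Finset L, (∀ a ∈ s, IsAtom a) ∧ s.sup id = x)
    {f e x : L} (hef : ¬ e ≤ f) (hfx : f ≤ x) (hex : e ≤ x) :
    ∃ y, f ≤ y ∧ ¬ e ≤ y ∧ y ⊔ e = x := by
  classical
  have hne : ({y : L | f ≤ y ∧ y ≤ x ∧ ¬ e ≤ y}).Nonempty := ⟨f, le_refl _, hfx, hef⟩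
  obtain ⟨y, ⟨hy1, hy2, hy3⟩, hmax⟩ := (Set.toFinite _).exists_maximal hne
  refine ⟨y, hy1, hy3, ?_⟩
  have hle : y ⊔ e ≤ x := sup_le hy2 hex
  by_contra hcon
  obtain ⟨s, hs, hsx⟩ := hat x
  have hb : ∃ b ∈ s, ¬ b ≤ y ⊔ e := by
    by_contra h
    push Not at h
    apply hcon
    apply le_antisymm hle
    rw [← hsx]
    exact Finset.sup_le h
  obtain ⟨b, hbs, hb⟩ := hb
  have hbx : b ≤ x := by rw [← hsx]; exact Finset.le_sup (f := id) hbs
  have hby : ¬ b ≤ y := fun h => hb (h.trans le_sup_left)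
  have hcov := covBy_sup_atom (hs b hbs) hby
  have heb : e ≤ y ⊔ b := by
    by_contra h
    have := hmax ⟨hy1.trans le_sup_left, sup_le hy2 hbx, h⟩ le_sup_left
    exact hby (le_sup_right.trans this)
  have h1 : y < y ⊔ e := lt_of_le_of_ne le_sup_left (fun h => hy3 (by rw [h]; exact le_sup_right))
  have h2 : y ⊔ e ≤ y ⊔ b := sup_le le_sup_left heb
  have h3 : y ⊔ e = y ⊔ b := by
    rcases h2.lt_or_eq with h | h
    · exact absurd h (hcov.2 h1)
    · exact h
  exact hb (h3 ▸ le_sup_right)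

/-- The local freeness condition at `e` over `f`. -/
def Free (f e : L) : Prop :=
  ∀ C : Finset L, (∀ b ∈ C, IsAtom b) → (∀ b ∈ C, ¬ e ≤ f ⊔ b) → e ≤ f ⊔ C.sup id →
    rk (⊤ : L) + 2 ≤ 2 * C.card + rk f

/-- A spanning subset of the right cardinality. -/
theorem exists_basis (f : L) (S : Finset L) (hS : ∀ b ∈ S, IsAtom b) :
    ∃ C ⊆ S, f ⊔ C.sup id = f ⊔ S.sup id ∧ C.card + rk f = rk (f ⊔ S.sup id) := by
  classical
  induction S using Finset.induction_on with
  | empty => exact ⟨∅, le_refl _, rfl, by simp⟩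
  | insert b S hb ih =>
    obtain ⟨C, hCS, hC1, hC2⟩ := ih (fun k hk => hS k (Finset.mem_insert_of_mem hk))
    have hbat := hS b (Finset.mem_insert_self b S)
    have e1 : f ⊔ (insert b S).sup id = (f ⊔ S.sup id) ⊔ b := by
      rw [Finset.sup_insert, id, sup_comm b, sup_assoc]
    by_cases hle : b ≤ f ⊔ S.sup id
    · refine ⟨C, hCS.trans (Finset.subset_insert b S), ?_, ?_⟩
      · rw [e1, sup_eq_left.mpr hle, hC1]
      · rw [e1, sup_eq_left.mpr hle, hC2]
    · have hbC : b ∉ C := fun h => hle (by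
        rw [← hC1]; exact (Finset.le_sup (f := id) h).trans le_sup_right)
      refine ⟨insert b C, Finset.insert_subset_insert b hCS, ?_, ?_⟩
      · rw [e1, Finset.sup_insert, id, sup_comm b, ← sup_assoc, hC1]
      · rw [e1, rk_sup_atom hbat hle, Finset.card_insert_of_notMem hbC]
        omega

/-- Uniqueness of the lower elements of small rank. -/
theorem Free.unique (hat : ∀ x : L, ∃ s : Finset L, (∀ a ∈ s, IsAtom a) ∧ s.sup id = x)
    {f e y y' : L} (he : IsAtom e) (hF : Free f e) (hfy : f ≤ y) (hfy' : f ≤ y')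
    (hey : ¬ e ≤ y) (hey' : ¬ e ≤ y') (h : y ⊔ e = y' ⊔ e)
    (hr : 2 * rk y < rk (⊤ : L) + rk f) : y = y' := by
  classical
  have := Fintype.ofFinite L
  set S : Finset L := Finset.univ.filter (fun b => IsAtom b ∧ b ≤ y ⊔ e ∧ ¬ e ≤ f ⊔ b) with hSdef
  have hS : ∀ b ∈ S, IsAtom b := fun b hb => (Finset.mem_filter.mp hb).2.1
  set y0 := f ⊔ S.sup id with hy0
  have hlow : ∀ z, f ≤ z → ¬ e ≤ z → z ≤ y ⊔ e → z ≤ y0 := by
    intro z hfz hez hz
    obtain ⟨s, hs, hsz⟩ := hat z
    rw [← hsz]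
    apply Finset.sup_le
    intro b hb
    have hbz : b ≤ z := by rw [← hsz]; exact Finset.le_sup (f := id) hb
    have hbS : b ∈ S := by
      rw [hSdef, Finset.mem_filter]
      exact ⟨Finset.mem_univ b, hs b hb, hbz.trans hz, fun h => hez (h.trans (sup_le hfz hbz))⟩
    exact (Finset.le_sup (f := id) hbS).trans le_sup_right
  have hle : y0 ≤ y ⊔ e :=
    sup_le (hfy.trans le_sup_left) (Finset.sup_le fun b hb => (Finset.mem_filter.mp hb).2.2.1)
  have hey0 : ¬ e ≤ y0 := by
    intro hcon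
    obtain ⟨C, hCS, hC1, hC2⟩ := exists_basis f S hS
    rw [← hy0] at hC1 hC2
    have h1 := hF C (fun b hb => hS b (hCS hb)) (fun b hb => (Finset.mem_filter.mp (hCS hb)).2.2.2)
      (by rw [hC1]; exact hcon)
    have h2 : rk y0 ≤ rk (y ⊔ e) := rk_mono hle
    have h3 := rk_sup_atom he hey
    omega
  have hrk : rk y0 ≤ rk y := by
    have h1 : y0 < y ⊔ e := lt_of_le_of_ne hle (fun h => hey0 (by rw [h]; exact le_sup_right))
    have h2 := rk_lt h1
    have h3 := rk_sup_atom he hey
    omega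
  have h1 : y = y0 := eq_of_le_of_rk (hlow y hfy hey le_sup_left) hrk
  have h2 : rk y' = rk y := by
    have h3 := rk_sup_atom he hey
    have h4 := rk_sup_atom he hey'
    rw [h] at h3
    omega
  have h5 : y' = y0 := eq_of_le_of_rk (hlow y' hfy' hey' (h ▸ le_sup_left)) (by omega)
  rw [h1, h5]

/-- The lift of a piece. -/
abbrev lft (e : L) (p : Pc L) (y : L) : Pc L := ⟨y, p.n + 1, Fin.cons e p.a⟩

/-- The part of a set of indices away from zero. -/
def tl {n : ℕ} (B : Finset (Fin (n + 1))) : Finset (Fin n) :=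
  Finset.univ.filter fun j => j.succ ∈ B

theorem mem_tl {n : ℕ} {B : Finset (Fin (n + 1))} {j : Fin n} : j ∈ tl B ↔ j.succ ∈ B := by
  simp [tl]

theorem sup_cons (e : L) {n : ℕ} (a : Fin n → L) (B : Finset (Fin (n + 1))) :
    B.sup (Fin.cons e a : Fin (n + 1) → L) = (if 0 ∈ B then e else ⊥) ⊔ (tl B).sup a := by
  apply le_antisymm
  · apply Finset.sup_le
    intro j
    refine Fin.cases ?_ (fun j => ?_) j
    · intro h
      rw [Fin.cons_zero, if_pos h]
      exact le_sup_left
    · intro h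
      rw [Fin.cons_succ]
      exact (Finset.le_sup (f := a) (mem_tl.mpr h)).trans le_sup_right
  · apply sup_le
    · split_ifs with h
      · have := Finset.le_sup (f := (Fin.cons e a : Fin (n + 1) → L)) h
        rwa [Fin.cons_zero] at this
      · exact bot_le
    · apply Finset.sup_le
      intro j hj
      have := Finset.le_sup (f := (Fin.cons e a : Fin (n + 1) → L)) (mem_tl.mp hj)
      rwa [Fin.cons_succ] at this

theorem lft_val (e : L) (p : Pc L) (y : L) (B : Finset (Fin (p.n + 1))) :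
    (lft e p y).val B = y ⊔ ((if 0 ∈ B then e else ⊥) ⊔ (tl B).sup p.a) := by
  change y ⊔ B.sup (Fin.cons e p.a : Fin (p.n + 1) → L) = _
  rw [sup_cons]

theorem lft_val_sup {e : L} {p : Pc L} {y : L} (hy : y ⊔ e = p.x) (B : Finset (Fin (p.n + 1))) :
    (lft e p y).val B ⊔ e = p.val (tl B) := by
  rw [lft_val, Pc.val, ← hy]
  split_ifs
  · rw [← sup_assoc, sup_assoc (y ⊔ e), sup_comm ((tl B).sup p.a) e, ← sup_assoc, sup_assoc y e e,
      sup_idem]
  · rw [bot_sup_eq, sup_assoc, sup_comm ((tl B).sup p.a) e, ← sup_assoc]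

theorem lft_good {e : L} (he : IsAtom e) {p : Pc L} (hp : p.Good) {y : L} (hy : y ⊔ e = p.x)
    (hey : ¬ e ≤ y) : (lft e p y).Good := by
  constructor
  · change ∀ j : Fin (p.n + 1), IsAtom ((Fin.cons e p.a : Fin (p.n + 1) → L) j)
    intro j
    refine Fin.cases ?_ (fun j => ?_) j
    · exact he
    · exact hp.1 j
  · change ∀ (B : Finset (Fin (p.n + 1))) (j : Fin (p.n + 1)), j ∉ B →
      ¬ (Fin.cons e p.a : Fin (p.n + 1) → L) j ≤ (lft e p y).val B
    intro B j
    refine Fin.cases ?_ (fun j => ?_) j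
    · intro h0 hle
      have h1 : e ≤ (lft e p y).val B := hle
      have h2 := lft_val_sup hy B
      rw [sup_eq_left.mpr h1, lft_val, if_neg h0, bot_sup_eq] at h2
      have h3 := rk_sup_finset_le y (tl B) p.a (fun j _ => hp.1 j)
      have h4 := hp.rk_val (tl B)
      have h5 := rk_sup_atom he hey
      rw [hy] at h5
      rw [h2] at h3
      omega
    · intro hj hle
      have h1 : p.a j ≤ (lft e p y).val B := hle
      have h2 : p.a j ≤ p.val (tl B) := by
        rw [← lft_val_sup hy B]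
        exact h1.trans le_sup_left
      exact hp.2 (tl B) j (fun h => hj (mem_tl.mp h)) h2

theorem le_lft_val_iff {e : L} (he : IsAtom e) {p : Pc L} (hp : p.Good) {y : L}
    (hy : y ⊔ e = p.x) (hey : ¬ e ≤ y) (B : Finset (Fin (p.n + 1))) :
    e ≤ (lft e p y).val B ↔ 0 ∈ B := by
  constructor
  · intro h
    by_contra h0
    exact (lft_good he hp hy hey).2 B (0 : Fin (p.n + 1)) h0 h
  · intro h
    rw [lft_val, if_pos h]
    exact le_sup_left.trans le_sup_right

/-- **The lifting lemma.** -/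
theorem HasPack.lift (hat : ∀ x : L, ∃ s : Finset L, (∀ a ∈ s, IsAtom a) ∧ s.sup id = x)
    {f e : L} (he : IsAtom e) (hef : ¬ e ≤ f) (hF : Free f e) (h : HasPack (f ⊔ e)) :
    HasPack f := by
  classical
  obtain ⟨ι, hι, p, hg, hf, hr, hsurj, hinj⟩ := h
  have hex : ∀ i, ∃ y, f ≤ y ∧ ¬ e ≤ y ∧ y ⊔ e = (p i).x := fun i =>
    exists_lower hat hef (le_sup_left.trans (hf i)) (le_sup_right.trans (hf i))
  choose y hfy hey hy using hex
  have hgood : ∀ i, (lft e (p i) (y i)).Good := fun i => lft_good he (hg i) (hy i) (hey i)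
  -- the set of indices with a given tail
  have hmk : ∀ {n : ℕ} (B : Finset (Fin n)) (b : Bool), ∃ B' : Finset (Fin (n + 1)),
      tl B' = B ∧ (0 ∈ B' ↔ b = true) := by
    intro n B b
    refine ⟨Finset.univ.filter (fun j => Fin.cases (b = true) (fun k => k ∈ B) j), ?_, ?_⟩
    · ext j
      rw [mem_tl, Finset.mem_filter]
      simp
    · rw [Finset.mem_filter]
      simp
  refine HasPack.assemble (fun i => lft e (p i) (y i)) hgood hfy ?_ ?_ ?_
  · intro i
    have h1 : (lft e (p i) (y i)).val Finset.univ = (p i).val Finset.univ := by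
      have h2 : e ≤ (lft e (p i) (y i)).val Finset.univ :=
        (le_lft_val_iff he (hg i) (hy i) (hey i) _).mpr (Finset.mem_univ _)
      have h3 := lft_val_sup (hy i) (Finset.univ : Finset (Fin ((p i).n + 1)))
      rw [sup_eq_left.mpr h2] at h3
      rw [h3]
      congr 1
      ext j
      simp [mem_tl]
    have h2 : (lft e (p i) (y i)).x = y i := rfl
    rw [h1, h2]
    have h3 := hr i
    have h4 := rk_sup_atom he hef
    have h5 := rk_sup_atom he (hey i)
    rw [hy i] at h5
    omega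
  · intro i B i' B' hB
    have h1 : (lft e (p i) (y i)).val B ⊔ e = (lft e (p i') (y i')).val B' ⊔ e := by rw [hB]
    rw [lft_val_sup (hy i), lft_val_sup (hy i')] at h1
    obtain ⟨rfl, h2⟩ := hinj _ _ _ _ h1
    refine ⟨rfl, heq_of_eq ?_⟩
    have h3 : tl B = tl B' := eq_of_heq h2
    have h4 : 0 ∈ B ↔ 0 ∈ B' := by
      rw [← le_lft_val_iff he (hg i) (hy i) (hey i) B, ← le_lft_val_iff he (hg i) (hy i) (hey i) B',
        hB]
    ext j
    refine Fin.cases h4 (fun j => ?_) j
    rw [← mem_tl, ← mem_tl, h3]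
  · intro z hfz hz
    by_cases hez : e ≤ z
    · obtain ⟨i, B, hB⟩ := hsurj z (sup_le hfz hez)
      obtain ⟨B', hB1, hB2⟩ := hmk B true
      refine ⟨i, B', ?_⟩
      have h1 : e ≤ (lft e (p i) (y i)).val B' :=
        (le_lft_val_iff he (hg i) (hy i) (hey i) _).mpr (hB2.mpr rfl)
      have h2 := lft_val_sup (hy i) B'
      rw [sup_eq_left.mpr h1, hB1, hB] at h2
      exact h2
    · obtain ⟨i, B, hB⟩ := hsurj (z ⊔ e) (sup_le_sup_right hfz e)
      obtain ⟨B', hB1, hB2⟩ := hmk B false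
      refine ⟨i, B', ?_⟩
      have h1 : ¬ e ≤ (lft e (p i) (y i)).val B' := fun h => by
        have := hB2.mp ((le_lft_val_iff he (hg i) (hy i) (hey i) _).mp h)
        exact Bool.false_ne_true this
      have h2 := lft_val_sup (hy i) B'
      rw [hB1, hB] at h2
      have h3 : y i ≤ (lft e (p i) (y i)).val B' := Pc.le_val (lft e (p i) (y i)) B'
      exact (Free.unique hat he hF hfz ((hfy i).trans h3) hez h1 h2.symm hz).symm

end Pool.Agent.Helper28.BPack
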