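import Mathlib

/-!
# Rank in finite atomistic upper semimodular lattices
-/

set_option autoImplicit false
set_option linter.unusedSectionVars false

namespace Pool.Agent.Helper28.BPack

/-- `Ch f y n`: there is a strictly increasing chain of length `n` from `f` to `y`. -/
inductive Ch {L : Type} [Preorder L] : L → L → ℕ → Prop
  | nil (f : L) : Ch f f 0
  | cons {f g y : L} {n : ℕ} (h : f < g) (t : Ch g y n) : Ch f y (n + 1)

section

variable {L : Type} [Lattice L]

theorem Ch.le {f y : L} {n : ℕ} (h : Ch f y n) : f ≤ y := by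
  induction h with
  | nil f => exact le_refl _
  | cons h t ih => exact h.le.trans ih

theorem ch_of_series (p : LTSeries L) : Ch p.head p.last p.length := by
  induction p using RelSeries.inductionOn with
  | singleton x => exact Ch.nil x
  | cons p x hx ih =>
    have h1 : (p.cons x hx).head = x := RelSeries.head_cons p x hx
    have h2 : (p.cons x hx).last = p.last := RelSeries.last_cons p x hx
    rw [h1, h2, RelSeries.cons_length]
    exact Ch.cons hx ih

theorem Ch.height_le {f y : L} {n : ℕ} (h : Ch f y n) :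
    Order.height f + n ≤ Order.height y := by
  induction h with
  | nil f => simp
  | @cons f g y n h t ih =>
    have h1 := Order.height_add_one_le h
    calc Order.height f + ((n + 1 : ℕ) : ℕ∞) = (Order.height f + 1) + n := by
          push_cast; ring
      _ ≤ Order.height g + n := by gcongr
      _ ≤ Order.height y := ih

variable [IsUpperModularLattice L]

theorem covBy_sup_of_covBy {f z p : L} (hfz : f ≤ z) (hfp : f ⋖ p) (hpz : ¬ p ≤ z) :
    z ⋖ z ⊔ p := by
  have h1 : p ⊓ z = f := by
    have h2 : f ≤ p ⊓ z := le_inf hfp.le hfz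
    rcases h2.lt_or_eq with h | h
    · exfalso
      rcases (inf_le_left : p ⊓ z ≤ p).lt_or_eq with h3 | h3
      · exact hfp.2 h h3
      · exact hpz (h3 ▸ inf_le_right)
    · exact h.symm
  have h3 : p ⊓ z ⋖ p := by rw [h1]; exact hfp
  have h4 := covBy_sup_of_inf_covBy_left h3
  rwa [sup_comm] at h4

/-- Joining with a cover of the bottom shortens a chain by at most one. -/
theorem Ch.shift {f p z y : L} {n : ℕ} (h : Ch z y n) (hfz : f ≤ z) (hfp : f ⋖ p) (hpy : p ≤ y) :
    ∃ m, n ≤ m + 1 ∧ Ch (z ⊔ p) y m := by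
  induction h with
  | nil z =>
    refine ⟨0, by omega, ?_⟩
    rw [sup_eq_left.mpr hpy]
    exact Ch.nil z
  | @cons z g y n hzg t ih =>
    obtain ⟨m, hm, hc⟩ := ih (hfz.trans hzg.le) hpy
    by_cases hpz : p ≤ z
    · refine ⟨n + 1, by omega, ?_⟩
      rw [sup_eq_left.mpr hpz]
      exact Ch.cons hzg t
    · have hz := covBy_sup_of_covBy hfz hfp hpz
      by_cases hpg : p ≤ g
      · have hle : z ⊔ p ≤ g := sup_le hzg.le hpg
        rcases hle.lt_or_eq with h | h
        · exact ⟨n + 1, by omega, Ch.cons h t⟩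
        · refine ⟨n, le_refl _, ?_⟩
          rw [h]; exact t
      · have hg := covBy_sup_of_covBy (hfz.trans hzg.le) hfp hpg
        have hle : z ⊔ p ≤ g ⊔ p := sup_le_sup_right hzg.le p
        have hne : z ⊔ p ≠ g ⊔ p := by
          intro h
          exact hz.2 hzg (h ▸ hg.lt)
        exact ⟨m + 1, by omega, Ch.cons (lt_of_le_of_ne hle hne) hc⟩

variable [Finite L]

theorem Ch.cov {x y : L} (hxy : x ⋖ y) : ∀ (f : L), f ≤ x → ∀ n, Ch f y n →
    ∃ m, n ≤ m + 1 ∧ Ch f x m := by
  intro f
  induction f using WellFoundedGT.induction with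
  | ind f ih =>
    intro hfx n hc
    rcases hfx.lt_or_eq with h | rfl
    · obtain ⟨p, hfp, hpx⟩ := exists_covBy_le_of_lt h
      obtain ⟨m', hm', hc'⟩ := hc.shift (le_refl f) hfp (hpx.trans hxy.le)
      rw [sup_eq_right.mpr hfp.le] at hc'
      obtain ⟨m, hm, hc2⟩ := ih p hfp.lt hpx m' hc'
      exact ⟨m + 1, by omega, Ch.cons hfp.lt hc2⟩
    · refine ⟨0, ?_, Ch.nil f⟩
      cases hc with
      | nil => omega
      | cons h t =>
        cases t with
        | nil => omega
        | cons h2 t2 => exact absurd (h2.trans_le t2.le) (hxy.2 h)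

end

section

variable {L : Type} [Lattice L] [BoundedOrder L] [Finite L]

theorem height_ne_top (x : L) : Order.height x ≠ ⊤ := by
  have : Fintype L := Fintype.ofFinite L
  have h : Order.height x ≤ (Fintype.card L : ℕ∞) := by
    rw [Order.height_le_iff]
    intro p _
    have := p.length_lt_card
    exact_mod_cast this.le
  exact ne_top_of_le_ne_top (ENat.natCast_ne_top _) h

/-- The rank. -/
noncomputable def rk (x : L) : ℕ := (Order.height x).toNat

theorem coe_rk (x : L) : (rk x : ℕ∞) = Order.height x := ENat.natCast_toNat (height_ne_top x)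

theorem rk_bot : rk (⊥ : L) = 0 := by
  have h : Order.height (⊥ : L) = 0 := by simp
  rw [rk, h]; rfl

theorem rk_lt {x y : L} (h : x < y) : rk x < rk y := by
  have h1 := Order.height_add_one_le h
  rw [← coe_rk, ← coe_rk] at h1
  have : rk x + 1 ≤ rk y := by exact_mod_cast h1
  omega

theorem rk_mono {x y : L} (h : x ≤ y) : rk x ≤ rk y := by
  rcases h.lt_or_eq with h | rfl
  · exact (rk_lt h).le
  · exact le_refl _

theorem eq_of_le_of_rk {x y : L} (h : x ≤ y) (hr : rk y ≤ rk x) : x = y := by
  rcases h.lt_or_eq with h | h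
  · exact absurd (rk_lt h) (not_lt.mpr hr)
  · exact h

theorem rk_le_of_series {x : L} {n : ℕ} (h : ∀ m, Ch ⊥ x m → m ≤ n) : rk x ≤ n := by
  have h1 : Order.height x ≤ (n : ℕ∞) := by
    rw [Order.height_le_iff']
    intro p hp
    have hc := ch_of_series p
    rw [hp] at hc
    rcases (bot_le : (⊥ : L) ≤ p.head).lt_or_eq with h2 | h2
    · have := h _ (Ch.cons h2 hc)
      exact_mod_cast (by omega : p.length ≤ n)
    · rw [← h2] at hc
      exact_mod_cast h _ hc
  rw [← coe_rk] at h1
  exact_mod_cast h1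

theorem exists_series (x : L) : Ch ⊥ x (rk x) := by
  by_contra hcon
  by_cases h0 : rk x = 0
  · have hx : x = ⊥ := by
      by_contra hx
      have := rk_lt (bot_lt_iff_ne_bot.mpr hx)
      omega
    rw [h0, hx] at hcon
    exact hcon (Ch.nil ⊥)
  · have h1 : rk x ≤ rk x - 1 := by
      apply rk_le_of_series
      intro m hm
      have h2 := hm.height_le
      rw [← coe_rk, ← coe_rk, rk_bot] at h2
      have h3 : m ≤ rk x := by
        have : ((0 : ℕ) : ℕ∞) + (m : ℕ∞) ≤ (rk x : ℕ∞) := h2
        rw [Nat.cast_zero, zero_add] at this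
        exact_mod_cast this
      rcases h3.lt_or_eq with h | h
      · omega
      · rw [h] at hm; exact absurd hm hcon
    omega

variable [IsUpperModularLattice L]

theorem rk_covBy {x y : L} (h : x ⋖ y) : rk y = rk x + 1 := by
  have h1 := rk_lt h.lt
  obtain ⟨m, hm, hc⟩ := Ch.cov h ⊥ bot_le _ (exists_series y)
  have h2 := hc.height_le
  rw [← coe_rk, ← coe_rk, rk_bot] at h2
  have h3 : m ≤ rk x := by
    rw [Nat.cast_zero, zero_add] at h2
    exact_mod_cast h2
  omega

theorem covBy_of_rk {x y : L} (h : x ≤ y) (hr : rk y = rk x + 1) : x ⋖ y := by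
  refine ⟨lt_of_le_of_ne h (by rintro rfl; omega), ?_⟩
  intro z h1 h2
  have := rk_lt h1
  have := rk_lt h2
  omega

theorem covBy_sup_atom {x a : L} (ha : IsAtom a) (h : ¬ a ≤ x) : x ⋖ x ⊔ a :=
  covBy_sup_of_covBy bot_le ha.bot_covBy h

theorem rk_sup_atom {x a : L} (ha : IsAtom a) (h : ¬ a ≤ x) : rk (x ⊔ a) = rk x + 1 :=
  rk_covBy (covBy_sup_atom ha h)

theorem rk_sup_atom_le {x a : L} (ha : IsAtom a) : rk (x ⊔ a) ≤ rk x + 1 := by
  by_cases h : a ≤ x
  · rw [sup_eq_left.mpr h]; omega
  · rw [rk_sup_atom ha h]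

theorem rk_sup_finset_le {ι : Type} (x : L) (B : Finset ι) (a : ι → L)
    (ha : ∀ j ∈ B, IsAtom (a j)) : rk (x ⊔ B.sup a) ≤ rk x + B.card := by
  classical
  induction B using Finset.induction_on with
  | empty => simp
  | insert j B hj ih =>
    rw [Finset.sup_insert, Finset.card_insert_of_notMem hj]
    have h1 := ih (fun k hk => ha k (Finset.mem_insert_of_mem hk))
    have h2 : x ⊔ (a j ⊔ B.sup a) = (x ⊔ B.sup a) ⊔ a j := by
      rw [sup_comm (a j), sup_assoc]
    rw [h2]
    have := rk_sup_atom_le (x := x ⊔ B.sup a) (ha j (Finset.mem_insert_self j B))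
    omega

end

end Pool.Agent.Helper28.BPack
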